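import Pool.Agent.Lib_helper41.SapR.ArDef

/-!
The area model of the family `Fam r` (K8).
-/

set_option autoImplicit false

namespace Pool.Agent.SapR.M41

open Finset Pool.Agent.Lib27 Filter Topology

/-- Number of caps of half length `m` and gap `g`. -/
noncomputable def capN (r m : ℕ) (g : ℤ) : ℝ := if 1 ≤ g then ((CapSet r g (2 * m)).card : ℝ) else 0

/-- Generating polynomial of the arches. -/
noncomputable def arB (r n : ℕ) (g : ℤ) : Polynomial ℝ :=
  if 1 ≤ g then ∑ w ∈ ArchSet r g (2 * n), (Polynomial.X : Polynomial ℝ) ^ (Ar r w) else 0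

lemma CapSet_empty (h5c : K5cap_Stmt) (r : ℕ) (x : ℤ) (M : ℕ) (hx : 1 ≤ x)
    (h : M % 2 = 1 ∨ (M : ℤ) < 2 * x ∨ r + 1 < M) : CapSet r x M = ∅ := by
  by_contra hne
  obtain ⟨T, hT⟩ := nonempty_iff_ne_empty.2 hne
  obtain ⟨h1, h2, h3, _⟩ := h5c.1 r x M T hx hT
  rcases h with h | h | h
  · rw [Nat.even_iff] at h1; omega
  · omega
  · omega

lemma isCap_capN (h5c : K5cap_Stmt) (r : ℕ) (hr : 1 ≤ r) : Gap.IsCap (r + 1) (capN r) where
  nonneg := fun m g => by unfold capN; split_ifs <;> positivity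
  supp_m := fun m g hm => by
    unfold capN
    split_ifs with h
    · rw [CapSet_empty h5c r g (2 * m) h (by omega)]; simp
    · rfl
  supp_g := fun m g hg => by
    unfold capN
    split_ifs with h
    · rw [CapSet_empty h5c r g (2 * m) h (by push_cast at hg ⊢; omega)]; simp
    · rfl
  nontriv := ⟨1, 1, by
    unfold capN
    rw [if_pos le_rfl]
    have := h5c.2.1 r hr
    have h2 : 0 < (CapSet r 1 (2 * 1)).card := card_pos.2 ⟨_, this⟩
    exact_mod_cast h2⟩

lemma ArchSet_zero (r : ℕ) (x : ℤ) : ArchSet r x 0 = ∅ := by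
  by_contra hne
  obtain ⟨w, hw⟩ := nonempty_iff_ne_empty.2 hne
  obtain ⟨h1, h2, _⟩ := (mem_ArchSet _ _ _ _).1 hw
  exact h2.1 (List.length_eq_zero_iff.1 h1)

open Classical in
/-- Polynomial form of K2. -/
lemma k2_poly (h2 : K2_Stmt) (r : ℕ) (x : ℤ) (N : ℕ) (hx : 1 ≤ x) :
    ∑ w ∈ ArchSet r x N, (Polynomial.X : Polynomial ℝ) ^ (Ar r w) =
      Polynomial.C ((CapSet r x N).card : ℝ) +
      ∑ p ∈ allowed r x, (Polynomial.X : Polynomial ℝ) ^ (ht p * (2 * x + jump p)).toNat *
        ∑ w ∈ ArchSet r (x + jump p) (N - (p.1.length + p.2.length)),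
          (Polynomial.X : Polynomial ℝ) ^ (Ar r w) := by
  have h1 : ∑ w ∈ ArchSet r x N, (Polynomial.X : Polynomial ℝ) ^ (Ar r w) =
      ∑ w ∈ CapSet r x N, (Polynomial.X : Polynomial ℝ) ^ (Ar r w) +
      ∑ p ∈ allowed r x, ∑ w ∈ ArchSet r (x + jump p) (N - (p.1.length + p.2.length)),
        (Polynomial.X : Polynomial ℝ) ^ (Ar r (p.1 ++ w ++ p.2)) := by
    ext k
    have := h2 r x N hx (fun w => ((Polynomial.X : Polynomial ℝ) ^ (Ar r w)).coeff k)
    rw [Polynomial.coeff_add, Polynomial.finsetSum_coeff, Polynomial.finsetSum_coeff,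
      Polynomial.finsetSum_coeff, this]
    congr 1
    apply sum_congr rfl
    intro p _
    rw [Polynomial.finsetSum_coeff]
  rw [h1]
  congr 1
  · rw [sum_congr rfl (fun w hw => by rw [Ar_cap h2 r x N hx w hw, pow_zero]), sum_const]
    rw [nsmul_eq_mul, mul_one]
    simp
  · apply sum_congr rfl
    intro p hp
    rw [mul_sum]
    apply sum_congr rfl
    intro w hw
    rw [Ar_step h2 r x N hx p hp w hw, pow_add, mul_comm]

lemma sol_arB (h2 : K2_Stmt) (hfar : K5far_Stmt) (hflip : K5flip_Stmt) (hsize : K5size_Stmt)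
    (hbasic : K5basic_Stmt) (r : ℕ) :
    Gap.IsSol (kern hfar hflip hsize hbasic r) (capN r) (arB r) where
  zero := fun n g hg => by
    unfold arB
    rw [if_neg (by omega)]
  step := fun n g hg => by
    classical
    have hS : (kern hfar hflip hsize hbasic r).S = Icc 1 (r + 2) ×ˢ Icc 1 (r + 2) := rfl
    have hR : (kern hfar hflip hsize hbasic r).R = r + 2 := rfl
    have hK : (kern hfar hflip hsize hbasic r).K = fun i g g' => ((alT r i g g').card : ℝ) := rfl
    rw [hS, hR, hK]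
    simp only
    unfold arB capN
    rw [if_pos hg, if_pos hg, k2_poly h2 r g (2 * n) hg]
    congr 1
    -- group the pieces by type and target gap
    have hmap : ∀ p ∈ allowed r g, (((p.1.length + p.2.length) / 2, (ht p).toNat), g + jump p) ∈
        (Icc 1 (r + 2) ×ˢ Icc 1 (r + 2)) ×ˢ Icc (g - (r + 2 : ℕ)) (g + (r + 2 : ℕ)) := by
      intro p hp
      have hs := hsize r p ((mem_allowed _ _ _).1 hp).1
      obtain ⟨a1, a2, a3, a4, a5, a6, a7⟩ := hs
      rw [abs_le] at a6
      simp only [mem_product, mem_Icc]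
      refine ⟨⟨⟨by omega, by omega⟩, ⟨by omega, by omega⟩⟩, ⟨by push_cast; omega, by push_cast; omega⟩⟩
    rw [← sum_fiberwise_of_maps_to hmap, sum_product]
    apply sum_congr rfl
    intro i hi
    have hfib : ∀ g' : ℤ, (allowed r g).filter (fun p =>
        (((p.1.length + p.2.length) / 2, (ht p).toNat), g + jump p) = (i, g')) =
        alT r i g g' := by
      intro g'
      ext p
      rw [mem_filter, mem_alT]
      constructor
      · rintro ⟨h1, h3⟩
        have hs := hsize r p ((mem_allowed _ _ _).1 h1).1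
        obtain ⟨a1, a2, a3, a4, a5, a6, a7⟩ := hs
        rw [Nat.even_iff] at a1
        rw [Prod.mk.injEq, Prod.ext_iff] at h3
        obtain ⟨⟨b1, b2⟩, b3⟩ := h3
        simp only at b1 b2 b3
        exact ⟨h1, by omega, by omega, by omega⟩
      · rintro ⟨h1, h3, h4, h5⟩
        refine ⟨h1, ?_⟩
        rw [Prod.mk.injEq, Prod.ext_iff]
        simp only
        exact ⟨⟨by omega, by omega⟩, by omega⟩
    by_cases hin : i.1 ≤ n
    · rw [if_pos hin]
      apply sum_congr rfl
      intro g' _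
      rw [hfib g']
      by_cases hg' : 1 ≤ g'
      · rw [if_pos hg']
        have hconst : ∀ p ∈ alT r i g g',
            (Polynomial.X : Polynomial ℝ) ^ (ht p * (2 * g + jump p)).toNat *
              ∑ w ∈ ArchSet r (g + jump p) (2 * n - (p.1.length + p.2.length)),
                (Polynomial.X : Polynomial ℝ) ^ (Ar r w) =
            (Polynomial.X : Polynomial ℝ) ^ ((i.2 : ℤ) * (g + g')).toNat *
              ∑ w ∈ ArchSet r g' (2 * (n - i.1)), (Polynomial.X : Polynomial ℝ) ^ (Ar r w) := by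
          intro p hp
          obtain ⟨h1, h3, h4, h5⟩ := (mem_alT _ _ _ _ _).1 hp
          rw [h3, h4, h5, show g + (g' - g) = g' by ring,
            show 2 * n - 2 * i.1 = 2 * (n - i.1) by omega,
            show 2 * g + (g' - g) = g + g' by ring]
        rw [sum_congr rfl hconst, sum_const, nsmul_eq_mul, mul_assoc]
        simp
      · rw [if_neg hg', mul_zero]
        apply sum_eq_zero
        intro p hp
        exfalso
        obtain ⟨h1, h3, h4, h5⟩ := (mem_alT _ _ _ _ _).1 hp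
        have := ((mem_allowed _ _ _).1 h1).2.2.1
        omega
    · rw [if_neg hin]
      apply sum_eq_zero
      intro g' _
      rw [hfib g']
      apply sum_eq_zero
      intro p hp
      obtain ⟨h1, h3, h4, h5⟩ := (mem_alT _ _ _ _ _).1 hp
      rw [h3, show 2 * n - 2 * i.1 = 0 by omega, ArchSet_zero, sum_empty, mul_zero]

/-- The index set of the canonical polygon words. -/
noncomputable def Om (r n : ℕ) : Finset ((_ : ℤ) × (_ : ℕ) × (List (Fin 4) × List (Fin 4))) :=
  (Icc (1 : ℤ) r).sigma fun x => (range (r + 2)).sigma fun M =>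
    CapSet r x M ×ˢ ArchSet r x (2 * n - M)

lemma sum_range_even (f : ℕ → Polynomial ℝ) (hf : ∀ m, f (2 * m + 1) = 0) (n : ℕ) :
    ∑ M ∈ range (2 * (n + 1)), f M = ∑ m ∈ range (n + 1), f (2 * m) := by
  induction n with
  | zero =>
    have := hf 0
    simp only [mul_zero, zero_add] at this
    simp [sum_range_succ, this]
  | succ n ih =>
    rw [sum_range_succ (fun m => f (2 * m)) (n + 1), ← ih,
      show 2 * (n + 1 + 1) = (2 * (n + 1)) + 1 + 1 by ring, sum_range_succ, sum_range_succ,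
      hf (n + 1), add_zero]

lemma count_Om (h5c : K5cap_Stmt) (r : ℕ) (hr : 1 ≤ r) (n : ℕ) (hn : r + 1 ≤ n) :
    ∑ q ∈ Om r n, (Polynomial.X : Polynomial ℝ) ^ (Ar r q.2.2.2) =
      Gap.closeP (r + 1) (capN r) (arB r) n := by
  unfold Om Gap.closeP
  rw [sum_sigma]
  simp_rw [sum_sigma, sum_product]
  rw [sum_comm]
  have hL : ∀ M ∈ range (r + 2), ∀ x ∈ Icc (1 : ℤ) r,
      ∑ T ∈ CapSet r x M, ∑ w ∈ ArchSet r x (2 * n - M), (Polynomial.X : Polynomial ℝ) ^ (Ar r w)
      = Polynomial.C ((CapSet r x M).card : ℝ) * ∑ w ∈ ArchSet r x (2 * n - M),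
        (Polynomial.X : Polynomial ℝ) ^ (Ar r w) := by
    intro M _ x _
    rw [sum_const, nsmul_eq_mul]
    simp
  rw [sum_congr rfl (fun M hM => sum_congr rfl (hL M hM))]
  set f : ℕ → Polynomial ℝ := fun M => ∑ x ∈ Icc (1 : ℤ) r,
    Polynomial.C ((CapSet r x M).card : ℝ) * ∑ w ∈ ArchSet r x (2 * n - M),
      (Polynomial.X : Polynomial ℝ) ^ (Ar r w) with hf
  have hodd : ∀ m, f (2 * m + 1) = 0 := by
    intro m
    apply sum_eq_zero
    intro x hx
    rw [CapSet_empty h5c r x (2 * m + 1) (mem_Icc.1 hx).1 (by omega)]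
    simp
  have hbig : ∀ M, r + 2 ≤ M → f M = 0 := by
    intro M hM
    apply sum_eq_zero
    intro x hx
    rw [CapSet_empty h5c r x M (mem_Icc.1 hx).1 (by omega)]
    simp
  have e1 : ∑ M ∈ range (r + 2), f M = ∑ M ∈ range (2 * (n + 1)), f M := by
    apply sum_subset
    · intro a ha; rw [mem_range] at *; omega
    · intro a _ ha
      rw [mem_range] at ha
      exact hbig a (by omega)
  rw [e1, sum_range_even f hodd n]
  apply sum_congr rfl
  intro m hm
  rw [hf]
  simp only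
  have e2 : ∑ g ∈ Icc (1 : ℤ) ((r + 1 : ℕ) : ℤ), Polynomial.C (capN r m g) * arB r (n - m) g =
      ∑ g ∈ Icc (1 : ℤ) r, Polynomial.C (capN r m g) * arB r (n - m) g := by
    symm
    apply sum_subset
    · intro a ha; rw [mem_Icc] at *; push_cast; omega
    · intro a ha ha'
      rw [mem_Icc] at ha ha'
      push_cast at ha
      unfold capN
      rw [if_pos ha.1, CapSet_empty h5c r a (2 * m) ha.1 ?_]
      · simp
      · by_cases h : r + 1 < 2 * m
        · exact Or.inr (Or.inr h)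
        · right; left; push_cast; omega
  rw [e2]
  apply sum_congr rfl
  intro g hg
  unfold capN arB
  rw [if_pos (mem_Icc.1 hg).1, if_pos (mem_Icc.1 hg).1]
  rw [show 2 * n - 2 * m = 2 * (n - m) by omega]

/-- The area model of the family `Fam r`. -/
noncomputable def model (h2 : K2_Stmt) (h4 : K4_Stmt) (hfar : K5far_Stmt) (hflip : K5flip_Stmt)
    (hsize : K5size_Stmt) (hbasic : K5basic_Stmt) (h5c : K5cap_Stmt) (r : ℕ) (hr : 1 ≤ r) :
    Gap.AreaModel where
  G := kern hfar hflip hsize hbasic r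
  C0 := r + 1
  s := capN r
  t := capN r
  cap_s := isCap_capN h5c r hr
  cap_t := isCap_capN h5c r hr
  B := arB r
  sol := sol_arB h2 hfar hflip hsize hbasic r
  Omega := fun n => {q // q ∈ Om r n}
  fin := fun n => inferInstance
  A := fun n q => Ar r q.1.2.2.2
  T := fun n q => ((|dbl 0 q.1.2.2.2 + dbl 0 q.1.2.2.1| : ℤ) : ℝ)
  T_nonneg := fun n q => by positivity
  C1 := 4 * (r + 2) ^ 2
  n1 := r + 1
  near := fun n hn q => by
    obtain ⟨⟨x, M, T, w⟩, hq⟩ := q
    simp only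
    unfold Om at hq
    rw [mem_sigma, mem_sigma, mem_product] at hq
    obtain ⟨hx, hM, hT, hw⟩ := hq
    simp only at hx hM hT hw
    rw [mem_Icc] at hx
    have h6 := near_arch h2 h4 hsize h5c r (2 * n - M) (2 * n - M) le_rfl x hx.1 w hw
    have h7 := (h5c.1 r x M T hx.1 hT).2.2.2
    have h8 : |(|dbl 0 w + dbl 0 T| : ℤ) - (Ar r w : ℤ)| ≤ 4 * ((r : ℤ) + 2) ^ 2 * n := by
      have hA : |(Ar r w : ℤ)| = (Ar r w : ℤ) := abs_of_nonneg (by positivity)
      have h9 := abs_abs_sub_abs_le (dbl 0 w + dbl 0 T) (Ar r w : ℤ)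
      rw [hA] at h9
      have h10 : |(dbl 0 w + dbl 0 T) - (Ar r w : ℤ)| ≤ |dbl 0 w - (Ar r w : ℤ)| + |dbl 0 T| := by
        have : (dbl 0 w + dbl 0 T) - (Ar r w : ℤ) = (dbl 0 w - (Ar r w : ℤ)) + dbl 0 T := by ring
        rw [this]
        exact abs_add_le _ _
      have h11 : ((2 * n - M : ℕ) : ℤ) ≤ 2 * n := by omega
      have h12 : ((r : ℤ) + 2) ^ 2 * ((2 * n - M : ℕ) : ℤ) ≤ ((r : ℤ) + 2) ^ 2 * (2 * n) :=
        mul_le_mul_of_nonneg_left h11 (sq_nonneg _)
      have h13 : ((r : ℤ) + 1) ^ 2 ≤ ((r : ℤ) + 2) ^ 2 := by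
        have : (0 : ℤ) ≤ r := by positivity
        nlinarith
      have h14 : ((r : ℤ) + 2) ^ 2 * 1 ≤ ((r : ℤ) + 2) ^ 2 * n := by
        apply mul_le_mul_of_nonneg_left _ (sq_nonneg _)
        have : 1 ≤ n := by omega
        exact_mod_cast this
      nlinarith [sq_nonneg ((r : ℤ) + 2)]
    have h15 : ((|(|dbl 0 w + dbl 0 T| : ℤ) - (Ar r w : ℤ)| : ℤ) : ℝ) ≤
        ((4 * ((r : ℤ) + 2) ^ 2 * n : ℤ) : ℝ) := by exact_mod_cast h8
    push_cast at h15 ⊢
    exact h15
  c := fun _ => 1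
  c_pos := fun _ => one_pos
  count := fun n hn => by
    rw [Polynomial.C_1, one_mul, ← count_Om h5c r hr n hn]
    exact sum_coe_sort (Om r n) (fun q => (Polynomial.X : Polynomial ℝ) ^ (Ar r q.2.2.2))

end Pool.Agent.SapR.M41
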