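import Pool.Agent.Lib_helper24.SapR.Stmts

/-!
Planarity of two disjoint lattice paths crossing a slab `0 ≤ x + y ≤ h`: the order of their
end points on the diagonal `x + y = h` is the order of their starting points on `x + y = 0`.
-/

set_option autoImplicit false

namespace Pool.Agent.SapR

open Finset Pool.Agent.Lib27

open Classical in
/-- Indicator in `ZMod 2`. -/
noncomputable def ind (P : Prop) : ZMod 2 := if P then 1 else 0

lemma ind_congr {P Q : Prop} (h : P ↔ Q) : ind P = ind Q := by
  unfold ind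
  by_cases hP : P
  · rw [if_pos hP, if_pos (h.1 hP)]
  · rw [if_neg hP, if_neg (fun hQ => hP (h.2 hQ))]

lemma ind_true {P : Prop} (h : P) : ind P = 1 := by
  unfold ind; exact if_pos h

lemma ind_false {P : Prop} (h : ¬ P) : ind P = 0 := by
  unfold ind; exact if_neg h

lemma ind_inj {P Q : Prop} (h : ind P = ind Q) : P ↔ Q := by
  unfold ind at h
  by_cases hP : P <;> by_cases hQ : Q
  · exact ⟨fun _ => hQ, fun _ => hP⟩
  · rw [if_pos hP, if_neg hQ] at h; exact absurd h (by decide)
  · rw [if_neg hP, if_pos hQ] at h; exact absurd h (by decide)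
  · exact ⟨fun h => absurd h hP, fun h => absurd h hQ⟩

lemma zmod2_add_self (x : ZMod 2) : x + x = 0 := by revert x; decide

/-- Parity of the number of edges of the path between the levels `l` and `l + 1` whose lower
end point has first coordinate smaller than `q`. -/
noncomputable def cp (l q : ℤ) : ℤ × ℤ → List (Fin 4) → ZMod 2
  | _, [] => 0
  | a, d :: u => ind (lev a = l ∧ lev (a + dv d) = l + 1 ∧ a.1 < q) +
      ind (lev (a + dv d) = l ∧ lev a = l + 1 ∧ (a + dv d).1 < q) + cp l q (a + dv d) u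

/-- Parity of the number of edges of the path between the levels `l - 1` and `l` whose upper
end point has first coordinate smaller than `q`. -/
noncomputable def cm (l q : ℤ) : ℤ × ℤ → List (Fin 4) → ZMod 2
  | _, [] => 0
  | a, d :: u => ind (lev a = l ∧ lev (a + dv d) = l - 1 ∧ a.1 < q) +
      ind (lev (a + dv d) = l ∧ lev a = l - 1 ∧ (a + dv d).1 < q) + cm l q (a + dv d) u

lemma dv_fst_snd (d : Fin 4) : ((dv d).1 = 1 ∧ (dv d).2 = 0) ∨ ((dv d).1 = 0 ∧ (dv d).2 = 1) ∨
    ((dv d).1 = -1 ∧ (dv d).2 = 0) ∨ ((dv d).1 = 0 ∧ (dv d).2 = -1) := by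
  revert d; decide

lemma lev_step (a : ℤ × ℤ) (d : Fin 4) :
    lev (a + dv d) = lev a + 1 ∨ lev (a + dv d) = lev a - 1 := by
  unfold lev
  rw [Prod.fst_add, Prod.snd_add]
  rcases dv_fst_snd d with h | h | h | h <;> omega

lemma deg (l q : ℤ) (a : ℤ × ℤ) (u : List (Fin 4)) :
    cp l q a u + cm l q a u = ind (lev a = l ∧ a.1 < q) + ind (lev (ep a u) = l ∧ (ep a u).1 < q) := by
  induction u generalizing a with
  | nil =>
    simp only [cp, cm, ep_nil, add_zero]
    rw [zmod2_add_self]
  | cons d u ih =>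
    have h := ih (a + dv d)
    rw [ep_cons]
    have key : ind (lev a = l ∧ lev (a + dv d) = l + 1 ∧ a.1 < q) +
        ind (lev (a + dv d) = l ∧ lev a = l + 1 ∧ (a + dv d).1 < q) +
        (ind (lev a = l ∧ lev (a + dv d) = l - 1 ∧ a.1 < q) +
        ind (lev (a + dv d) = l ∧ lev a = l - 1 ∧ (a + dv d).1 < q)) =
        ind (lev a = l ∧ a.1 < q) + ind (lev (a + dv d) = l ∧ (a + dv d).1 < q) := by
      have hs := lev_step a d
      by_cases h1 : lev a = l
      · have h2 : lev (a + dv d) ≠ l := by omega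
        rw [ind_false (P := lev (a + dv d) = l ∧ lev a = l + 1 ∧ (a + dv d).1 < q)
          (fun h => h2 h.1),
          ind_false (P := lev (a + dv d) = l ∧ lev a = l - 1 ∧ (a + dv d).1 < q)
          (fun h => h2 h.1),
          ind_false (P := lev (a + dv d) = l ∧ (a + dv d).1 < q) (fun h => h2 h.1)]
        rcases hs with h3 | h3
        · rw [ind_false (P := lev a = l ∧ lev (a + dv d) = l - 1 ∧ a.1 < q)
            (fun h => by omega)]
          rw [ind_congr (P := lev a = l ∧ lev (a + dv d) = l + 1 ∧ a.1 < q)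
            (Q := lev a = l ∧ a.1 < q) ⟨fun h => ⟨h.1, h.2.2⟩, fun h => ⟨h.1, by omega, h.2⟩⟩]
          ring
        · rw [ind_false (P := lev a = l ∧ lev (a + dv d) = l + 1 ∧ a.1 < q)
            (fun h => by omega)]
          rw [ind_congr (P := lev a = l ∧ lev (a + dv d) = l - 1 ∧ a.1 < q)
            (Q := lev a = l ∧ a.1 < q) ⟨fun h => ⟨h.1, h.2.2⟩, fun h => ⟨h.1, by omega, h.2⟩⟩]
          ring
      · rw [ind_false (P := lev a = l ∧ lev (a + dv d) = l + 1 ∧ a.1 < q) (fun h => h1 h.1),
          ind_false (P := lev a = l ∧ lev (a + dv d) = l - 1 ∧ a.1 < q) (fun h => h1 h.1),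
          ind_false (P := lev a = l ∧ a.1 < q) (fun h => h1 h.1)]
        by_cases h2 : lev (a + dv d) = l
        · rcases hs with h3 | h3
          · rw [ind_false (P := lev (a + dv d) = l ∧ lev a = l + 1 ∧ (a + dv d).1 < q)
              (fun h => by omega)]
            rw [ind_congr (P := lev (a + dv d) = l ∧ lev a = l - 1 ∧ (a + dv d).1 < q)
              (Q := lev (a + dv d) = l ∧ (a + dv d).1 < q)
              ⟨fun h => ⟨h.1, h.2.2⟩, fun h => ⟨h.1, by omega, h.2⟩⟩]
            ring
          · rw [ind_false (P := lev (a + dv d) = l ∧ lev a = l - 1 ∧ (a + dv d).1 < q)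
              (fun h => by omega)]
            rw [ind_congr (P := lev (a + dv d) = l ∧ lev a = l + 1 ∧ (a + dv d).1 < q)
              (Q := lev (a + dv d) = l ∧ (a + dv d).1 < q)
              ⟨fun h => ⟨h.1, h.2.2⟩, fun h => ⟨h.1, by omega, h.2⟩⟩]
            ring
        · rw [ind_false (P := lev (a + dv d) = l ∧ lev a = l + 1 ∧ (a + dv d).1 < q)
            (fun h => h2 h.1),
            ind_false (P := lev (a + dv d) = l ∧ lev a = l - 1 ∧ (a + dv d).1 < q)
            (fun h => h2 h.1),
            ind_false (P := lev (a + dv d) = l ∧ (a + dv d).1 < q) (fun h => h2 h.1)]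
          ring
    have e : cp l q a (d :: u) + cm l q a (d :: u) =
        (ind (lev a = l ∧ lev (a + dv d) = l + 1 ∧ a.1 < q) +
        ind (lev (a + dv d) = l ∧ lev a = l + 1 ∧ (a + dv d).1 < q) +
        (ind (lev a = l ∧ lev (a + dv d) = l - 1 ∧ a.1 < q) +
        ind (lev (a + dv d) = l ∧ lev a = l - 1 ∧ (a + dv d).1 < q))) +
        (cp l q (a + dv d) u + cm l q (a + dv d) u) := by
      simp only [cp, cm]
      ring
    rw [e, key, h]
    have := zmod2_add_self (ind (lev (a + dv d) = l ∧ (a + dv d).1 < q))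
    linear_combination this

lemma cp_eq_zero (l q : ℤ) (a : ℤ × ℤ) (u : List (Fin 4)) (h : ∀ v ∈ vt a u, lev v ≤ l) :
    cp l q a u = 0 := by
  induction u generalizing a with
  | nil => rfl
  | cons d u ih =>
    rw [vt_cons] at h
    have h1 := h a (by simp)
    have h2 := h (a + dv d) (by simp [mem_vt_self])
    simp only [cp]
    rw [ih (a + dv d) (fun v hv => h v (by simp [hv])), ind_false (by omega),
      ind_false (by omega)]
    ring

lemma cm_eq_zero (l q : ℤ) (a : ℤ × ℤ) (u : List (Fin 4)) (h : ∀ v ∈ vt a u, l ≤ lev v) :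
    cm l q a u = 0 := by
  induction u generalizing a with
  | nil => rfl
  | cons d u ih =>
    rw [vt_cons] at h
    have h1 := h a (by simp)
    have h2 := h (a + dv d) (by simp [mem_vt_self])
    simp only [cm]
    rw [ih (a + dv d) (fun v hv => h v (by simp [hv])), ind_false (by omega),
      ind_false (by omega)]
    ring

/-- Two disjoint edges between the levels `l` and `l + 1` do not cross. -/
lemma edge_order (a v : ℤ × ℤ) (d e : Fin 4) (ha : lev (a + dv d) = lev a + 1)
    (hv : lev (v + dv e) = lev v + 1) (hl : lev a = lev v) (h1 : a ≠ v)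
    (h2 : a + dv d ≠ v + dv e) : a.1 < v.1 ↔ (a + dv d).1 < (v + dv e).1 := by
  have h1' : a.1 ≠ v.1 := by
    intro h
    apply h1
    unfold lev at hl
    exact Prod.ext h (by omega)
  have h2' : (a + dv d).1 ≠ (v + dv e).1 := by
    intro h
    apply h2
    unfold lev at hl ha hv
    exact Prod.ext h (by omega)
  unfold lev at hl ha hv
  rw [Prod.fst_add, Prod.snd_add] at ha hv
  rw [Prod.fst_add, Prod.fst_add] at h2' ⊢
  rcases dv_fst_snd d with h | h | h | h <;> rcases dv_fst_snd e with h' | h' | h' | h' <;> omega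

lemma cross_up (v : ℤ × ℤ) (e : Fin 4) (hv : lev (v + dv e) = lev v + 1) (a : ℤ × ℤ)
    (u : List (Fin 4)) (h1 : v ∉ vt a u) (h2 : v + dv e ∉ vt a u) :
    cp (lev v) v.1 a u = cm (lev (v + dv e)) (v + dv e).1 a u := by
  induction u generalizing a with
  | nil => rfl
  | cons d u ih =>
    rw [vt_cons, List.mem_cons, not_or] at h1 h2
    simp only [cp, cm]
    rw [ih (a + dv d) h1.2 h2.2]
    have h3 : a + dv d ≠ v := fun h => h1.2 (by rw [← h]; exact mem_vt_self _ _)
    have h4 : a + dv d ≠ v + dv e := fun h => h2.2 (by rw [← h]; exact mem_vt_self _ _)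
    have e1 : ind (lev a = lev v ∧ lev (a + dv d) = lev v + 1 ∧ a.1 < v.1) =
        ind (lev (a + dv d) = lev (v + dv e) ∧ lev a = lev (v + dv e) - 1 ∧
          (a + dv d).1 < (v + dv e).1) := by
      apply ind_congr
      constructor
      · rintro ⟨h5, h6, h7⟩
        refine ⟨by omega, by omega, ?_⟩
        exact (edge_order a v d e (by omega) hv h5 (Ne.symm h1.1) h4).1 h7
      · rintro ⟨h5, h6, h7⟩
        refine ⟨by omega, by omega, ?_⟩
        exact (edge_order a v d e (by omega) hv (by omega) (Ne.symm h1.1) h4).2 h7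
    have e2 : ind (lev (a + dv d) = lev v ∧ lev a = lev v + 1 ∧ (a + dv d).1 < v.1) =
        ind (lev a = lev (v + dv e) ∧ lev (a + dv d) = lev (v + dv e) - 1 ∧
          a.1 < (v + dv e).1) := by
      have hd : a = (a + dv d) + dv (d + 2) := by
        rw [dv_add_two]; abel
      apply ind_congr
      constructor
      · rintro ⟨h5, h6, h7⟩
        refine ⟨by omega, by omega, ?_⟩
        have := (edge_order (a + dv d) v (d + 2) e (by rw [← hd]; omega) hv h5 h3
          (by rw [← hd]; exact Ne.symm h2.1)).1 h7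
        rwa [← hd] at this
      · rintro ⟨h5, h6, h7⟩
        refine ⟨by omega, by omega, ?_⟩
        apply (edge_order (a + dv d) v (d + 2) e (by rw [← hd]; omega) hv (by omega) h3
          (by rw [← hd]; exact Ne.symm h2.1)).2
        rwa [← hd]
    rw [e1, e2]
    ring

/-- The side of the point `v` with respect to the path. -/
noncomputable def side (h : ℤ) (a : ℤ × ℤ) (u : List (Fin 4)) (v : ℤ × ℤ) : ZMod 2 :=
  cp (lev v) v.1 a u + ind (lev v = h ∧ (ep a u).1 < v.1)

lemma side_eq (h : ℤ) (a : ℤ × ℤ) (u : List (Fin 4)) (ha : lev a = 0) (he : lev (ep a u) = h)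
    (v : ℤ × ℤ) : side h a u v = cm (lev v) v.1 a u + ind (lev v = 0 ∧ a.1 < v.1) := by
  have h1 := deg (lev v) v.1 a u
  unfold side
  rw [ind_congr (P := lev v = h ∧ (ep a u).1 < v.1) (Q := lev (ep a u) = lev v ∧ (ep a u).1 < v.1)
    ⟨fun h => ⟨by omega, h.2⟩, fun h => ⟨by omega, h.2⟩⟩,
    ind_congr (P := lev v = 0 ∧ a.1 < v.1) (Q := lev a = lev v ∧ a.1 < v.1)
    ⟨fun h => ⟨by omega, h.2⟩, fun h => ⟨by omega, h.2⟩⟩]
  have h2 := zmod2_add_self (cm (lev v) v.1 a u)
  have h3 := zmod2_add_self (ind (lev (ep a u) = lev v ∧ (ep a u).1 < v.1))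
  linear_combination h1 - h2 + h3

lemma side_step_up (h : ℤ) (a : ℤ × ℤ) (u : List (Fin 4)) (ha : lev a = 0)
    (he : lev (ep a u) = h) (v : ℤ × ℤ) (e : Fin 4) (hv : lev (v + dv e) = lev v + 1)
    (h0 : 0 ≤ lev v) (hh : lev (v + dv e) ≤ h) (h1 : v ∉ vt a u) (h2 : v + dv e ∉ vt a u) :
    side h a u v = side h a u (v + dv e) := by
  rw [side_eq h a u ha he (v + dv e)]
  unfold side
  rw [ind_false (P := lev v = h ∧ (ep a u).1 < v.1) (by omega),
    ind_false (P := lev (v + dv e) = 0 ∧ a.1 < (v + dv e).1) (by omega),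
    cross_up v e hv a u h1 h2]

lemma side_const (h : ℤ) (a : ℤ × ℤ) (u : List (Fin 4)) (ha : lev a = 0)
    (he : lev (ep a u) = h) (w : List (Fin 4)) (b : ℤ × ℤ)
    (hw : ∀ v ∈ vt b w, 0 ≤ lev v ∧ lev v ≤ h) (hd : ∀ v ∈ vt b w, v ∉ vt a u) :
    side h a u b = side h a u (ep b w) := by
  induction w generalizing b with
  | nil => rfl
  | cons e w ih =>
    rw [vt_cons] at hw hd
    rw [ep_cons, ← ih (b + dv e) (fun v hv => hw v (by simp [hv])) (fun v hv => hd v (by simp [hv]))]
    have w1 := hw b (by simp)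
    have w2 := hw (b + dv e) (by simp [mem_vt_self])
    have d1 := hd b (by simp)
    have d2 := hd (b + dv e) (by simp [mem_vt_self])
    rcases lev_step b e with h1 | h1
    · exact side_step_up h a u ha he b e h1 w1.1 w2.2 d1 d2
    · have hb : b = (b + dv e) + dv (e + 2) := by
        rw [dv_add_two]; abel
      have := side_step_up h a u ha he (b + dv e) (e + 2) (by rw [← hb]; omega) w2.1
        (by rw [← hb]; exact w1.2) d2 (by rw [← hb]; exact d1)
      rw [← hb] at this
      exact this.symm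

/-- Planarity: two disjoint paths from level `0` to level `h` staying between these levels
keep their order. -/
theorem planar (h : ℤ) (a b : ℤ × ℤ) (u w : List (Fin 4)) (ha : lev a = 0) (hb : lev b = 0)
    (hea : lev (ep a u) = h) (heb : lev (ep b w) = h)
    (hu : ∀ v ∈ vt a u, 0 ≤ lev v ∧ lev v ≤ h) (hw : ∀ v ∈ vt b w, 0 ≤ lev v ∧ lev v ≤ h)
    (hd : ∀ v ∈ vt b w, v ∉ vt a u) : a.1 < b.1 ↔ (ep a u).1 < (ep b w).1 := by
  have h1 := side_const h a u ha hea w b hw hd
  rw [side_eq h a u ha hea b] at h1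
  unfold side at h1
  rw [cm_eq_zero (lev b) b.1 a u (fun v hv => by rw [hb]; exact (hu v hv).1),
    cp_eq_zero (lev (ep b w)) (ep b w).1 a u (fun v hv => by rw [heb]; exact (hu v hv).2),
    zero_add, zero_add] at h1
  have h2 := ind_inj h1
  constructor
  · intro h3
    exact (h2.1 ⟨hb, h3⟩).2
  · intro h3
    exact (h2.2 ⟨heb, h3⟩).2

/-- The tail of the vertex list of a nonempty word consists of the interior vertices and the
end point. -/
lemma vt_cases (a : ℤ × ℤ) (w : List (Fin 4)) (v : ℤ × ℤ) (hv : v ∈ vt a w) :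
    v = a ∨ v ∈ (vs a w).tail ∨ v = ep a w := by
  unfold vt at hv
  rw [List.mem_append, List.mem_singleton] at hv
  rcases hv with hv | hv
  · cases w with
    | nil => simp at hv
    | cons d w =>
      rw [vs_cons, List.mem_cons] at hv
      rcases hv with hv | hv
      · exact Or.inl hv
      · exact Or.inr (Or.inl (by rw [vs_cons]; exact hv))
  · exact Or.inr (Or.inr hv)

lemma lev_add_pl (a b : ℤ × ℤ) : lev (a + b) = lev a + lev b := by
  unfold lev
  rw [Prod.fst_add, Prod.snd_add]
  ring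

theorem k3 : K3_Stmt := by
  intro x p hx hs hd
  obtain ⟨h0, h1, _, _, h4, h5⟩ := hs
  set U := p.1 with hU
  set D := p.2 with hD
  set y := x + jump p with hy
  set Q : ℤ × ℤ := ep 0 U + (-y, y) with hQ
  have hjump : jump p = (ep 0 U).1 + (ep 0 D).1 := rfl
  have hlQ : lev Q = lev (ep 0 U) := by
    rw [hQ, lev_add_pl]; simp [lev]
  have hepQ : ep Q D = Q + ep 0 D := by rw [ep_eq, add_comm]
  have hlE : lev (ep Q D) = 0 := by
    rw [hepQ, lev_add_pl, hlQ, h1]; ring
  have hE1 : (ep Q D).1 = -x := by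
    rw [hepQ, Prod.fst_add, hQ, Prod.fst_add]
    simp only
    rw [hy, hjump]
    ring
  have hw : ∀ v ∈ vt Q D, 0 ≤ lev v ∧ lev v ≤ lev (ep 0 U) := by
    intro v hv
    rcases vt_cases Q D v hv with rfl | hv | rfl
    · omega
    · rw [vs_eq, ← List.map_tail, List.mem_map] at hv
      obtain ⟨v', hv', rfl⟩ := hv
      have := h5 v' hv'
      rw [lev_add_pl, hlQ]
      omega
    · omega
  have hc := side_const (lev (ep 0 U)) 0 U (by simp [lev]) rfl D Q hw (fun v hv hv' => hd hv' hv)
  rw [side_eq (lev (ep 0 U)) 0 U (by simp [lev]) rfl (ep Q D)] at hc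
  unfold side at hc
  have hu : ∀ v ∈ vt 0 U, 0 ≤ lev v ∧ lev v ≤ lev (ep 0 U) := by
    intro v hv
    rcases vt_cases 0 U v hv with rfl | hv | rfl
    · constructor
      · simp [lev]
      · rw [show lev (0 : ℤ × ℤ) = 0 from by simp [lev]]; omega
    · have := h4 v hv; omega
    · omega
  rw [cm_eq_zero (lev (ep Q D)) _ 0 U (fun v hv => by rw [hlE]; exact (hu v hv).1),
    cp_eq_zero (lev Q) Q.1 0 U (fun v hv => by rw [hlQ]; exact (hu v hv).2),
    zero_add, zero_add] at hc
  have h6 := ind_inj hc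
  have h7 : ¬ (lev Q = lev (ep 0 U) ∧ (ep 0 U).1 < Q.1) := by
    intro h
    have := (h6.1 h).2
    rw [hE1] at this
    simp only [Prod.fst_zero] at this
    omega
  have h8 : Q.1 = (ep 0 U).1 - y := by rw [hQ, Prod.fst_add]; simp; ring
  have h9 : 0 ≤ y := by
    by_contra hneg
    exact h7 ⟨hlQ, by omega⟩
  have h10 : y ≠ 0 := by
    intro h
    apply hd (a := ep 0 U)
    · exact ep_mem_vt 0 U
    · have : ep 0 p.1 + (-(x + jump p), x + jump p) = ep 0 U := by
        rw [← hy, h, ← hU]
        have : ((-0 : ℤ), (0 : ℤ)) = (0 : ℤ × ℤ) := by simp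
        rw [this, add_zero]
      rw [this]
      exact mem_vt_self _ _
  omega

end Pool.Agent.SapR
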