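import Mathlib

/-!
Diagonal argument for distribution functions.
-/

set_option autoImplicit false

namespace Pool.Agent.SapR.M41

open Filter Topology MeasureTheory ProbabilityTheory

lemma countable_atoms (μ : Measure ℝ) [IsProbabilityMeasure μ] : {x : ℝ | μ {x} ≠ 0}.Countable := by
  have h := Measure.countable_meas_level_set_pos (μ := μ) (g := fun x : ℝ => x) measurable_id
  refine h.mono ?_
  intro x hx
  simp only [Set.mem_ofPred_eq] at hx ⊢
  have : {a : ℝ | a = x} = {x} := by ext; simp
  rw [this]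
  exact pos_iff_ne_zero.2 hx

lemma cdf_continuousAt (μ : Measure ℝ) [IsProbabilityMeasure μ] (x : ℝ) (hx : μ {x} = 0) :
    ContinuousAt (fun y => (μ (Set.Iic y)).toReal) x := by
  have h1 : (fun y => (μ (Set.Iic y)).toReal) = fun y => cdf μ y := by
    funext y
    rw [cdf_eq_real]
    rfl
  rw [h1]
  rw [(cdf μ).mono.continuousAt_iff_leftLim_eq_rightLim, (cdf μ).rightLim_eq]
  have h2 := (cdf μ).measure_singleton x
  rw [measure_cdf, hx] at h2
  have h3 : cdf μ x - Function.leftLim (cdf μ) x ≤ 0 := by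
    rw [← ENNReal.ofReal_eq_zero]
    exact h2.symm
  have h4 : Function.leftLim (cdf μ) x ≤ cdf μ x := (cdf μ).mono.leftLim_le le_rfl
  linarith

/-- If for every fixed `r ≥ 1` the distribution functions `F r n` converge to that of `μ`, then
they do so along every sequence `r n` which does not exceed a suitable sequence `R n → ∞`. -/
lemma diagonal (μ : Measure ℝ) [IsProbabilityMeasure μ] (F : ℕ → ℕ → ℝ → ℝ)
    (hmono : ∀ r n, Monotone (F r n))
    (h : ∀ x : ℝ, μ {x} = 0 → ∀ r : ℕ, 1 ≤ r →
      Tendsto (fun n : ℕ => F r n x) atTop (𝓝 (μ (Set.Iic x)).toReal)) :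
    ∃ R : ℕ → ℕ, Tendsto R atTop atTop ∧ ∀ r : ℕ → ℕ, (∀ᶠ n in atTop, 1 ≤ r n ∧ r n ≤ R n) →
      ∀ x : ℝ, μ {x} = 0 → Tendsto (fun n : ℕ => F (r n) n x) atTop (𝓝 (μ (Set.Iic x)).toReal) := by
  classical
  -- a dense sequence of continuity points
  have hdense : Dense ({x : ℝ | μ {x} ≠ 0}ᶜ) := (countable_atoms μ).dense_compl ℝ
  obtain ⟨t, hts, htc, htd⟩ := hdense.exists_countable_dense_subset
  obtain ⟨u, hu⟩ := htc.exists_eq_range htd.nonempty
  have hu0 : ∀ i, μ {u i} = 0 := by
    intro i
    have : u i ∈ {x : ℝ | μ {x} ≠ 0}ᶜ := hts (by rw [hu]; exact Set.mem_range_self i)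
    simpa using this
  set G : ℝ → ℝ := fun x => (μ (Set.Iic x)).toReal with hG
  set P : ℕ → ℕ → Prop := fun n k => ∀ i ∈ Finset.range (k + 1), ∀ r ∈ Finset.Icc 1 k,
    |F r n (u i) - G (u i)| ≤ 1 / ((k : ℝ) + 1) with hP
  have hPk : ∀ k, ∀ᶠ n in atTop, P n k := by
    intro k
    rw [hP]
    simp only
    rw [Filter.eventually_all_finset]
    intro i _
    rw [Filter.eventually_all_finset]
    intro r hr
    have h1 := h (u i) (hu0 i) r (Finset.mem_Icc.1 hr).1
    have h2 := (Metric.tendsto_atTop.1 h1) (1 / ((k : ℝ) + 1)) (by positivity)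
    obtain ⟨N, hN⟩ := h2
    filter_upwards [eventually_ge_atTop N] with n hn
    have := hN n hn
    rw [Real.dist_eq] at this
    exact this.le
  refine ⟨fun n => Nat.findGreatest (P n) n, ?_, ?_⟩
  · rw [tendsto_atTop]
    intro k
    filter_upwards [hPk k, eventually_ge_atTop k] with n h1 h2
    exact Nat.le_findGreatest h2 h1
  · intro r hr x hx
    -- convergence at the points of the dense sequence
    have hR : Tendsto (fun n => Nat.findGreatest (P n) n) atTop atTop := by
      rw [tendsto_atTop]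
      intro k
      filter_upwards [hPk k, eventually_ge_atTop k] with n h1 h2
      exact Nat.le_findGreatest h2 h1
    have hpt : ∀ i, Tendsto (fun n : ℕ => F (r n) n (u i)) atTop (𝓝 (G (u i))) := by
      intro i
      rw [tendsto_iff_dist_tendsto_zero]
      have hinv : Tendsto (fun n => 1 / (((Nat.findGreatest (P n) n : ℕ) : ℝ) + 1)) atTop (𝓝 0) :=
        tendsto_one_div_add_atTop_nhds_zero_nat.comp hR
      refine squeeze_zero' (Eventually.of_forall fun n => dist_nonneg) ?_ hinv
      filter_upwards [hr, hR.eventually_ge_atTop (i + 1)] with n h1 h2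
      have hne : Nat.findGreatest (P n) n ≠ 0 := by omega
      have hPn : P n (Nat.findGreatest (P n) n) := Nat.findGreatest_of_ne_zero rfl hne
      rw [Real.dist_eq]
      exact hPn i (Finset.mem_range.2 (by omega)) (r n) (Finset.mem_Icc.2 h1)
    rw [Metric.tendsto_atTop]
    intro ε hε
    have hc := cdf_continuousAt μ x hx
    obtain ⟨δ, hδ, hball⟩ := Metric.continuousAt_iff.1 hc (ε / 2) (by linarith)
    obtain ⟨a, hat, ha⟩ := htd.exists_between (show x - δ < x by linarith)
    obtain ⟨b, hbt, hb⟩ := htd.exists_between (show x < x + δ by linarith)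
    rw [hu] at hat hbt
    obtain ⟨i, rfl⟩ := hat
    obtain ⟨j, rfl⟩ := hbt
    have h1 := Metric.tendsto_atTop.1 (hpt i) (ε / 2) (by linarith)
    have h2 := Metric.tendsto_atTop.1 (hpt j) (ε / 2) (by linarith)
    obtain ⟨N1, hN1⟩ := h1
    obtain ⟨N2, hN2⟩ := h2
    refine ⟨max N1 N2, fun n hn => ?_⟩
    have e1 := hN1 n (le_trans (le_max_left _ _) hn)
    have e2 := hN2 n (le_trans (le_max_right _ _) hn)
    have e3 := @hball (u i) (by
      rw [Real.dist_eq, abs_lt]
      constructor <;> [linarith [ha.1]; linarith [ha.2]])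
    have e4 := @hball (u j) (by
      rw [Real.dist_eq, abs_lt]
      constructor <;> [linarith [hb.1]; linarith [hb.2]])
    rw [Real.dist_eq, abs_lt] at e1 e2 e3 e4 ⊢
    have m1 := hmono (r n) n ha.2.le
    have m2 := hmono (r n) n hb.1.le
    constructor
    · linarith [e1.1, e3.1]
    · linarith [e2.2, e4.2]

end Pool.Agent.SapR.M41
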