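import Pool.Agent.Lib_helper41.SapR.OpenPair

/-!
K7: monotonicity, exhaustion and growth of the families `Fam r`.
-/

set_option autoImplicit false

namespace Pool.Agent.SapR.M41

open Finset Pool.Agent.Lib27 Filter Topology

lemma mem_Fam (r n : ℕ) (s : List (Fin 4)) :
    s ∈ Fam r n ↔ s ∈ W n ∧ ShortRuns r (vs 0 s) := by
  classical
  rw [Fam, mem_filter]

theorem k7mono : K7mono_Stmt := by
  constructor
  · intro r r' n h s hs
    rw [mem_Fam] at hs ⊢
    exact ⟨hs.1, fun a b hab => (hs.2 a b hab).trans h⟩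
  · intro r n h
    ext s
    rw [mem_Fam]
    constructor
    · exact fun h => h.1
    · intro hs
      refine ⟨hs, fun a b _ => ?_⟩
      have h1 := cntI_le_length (vs 0 s) a b
      rw [vs_length, ((mem_W n s).1 hs).1] at h1
      omega

lemma runs_of {x y : ℤ} {U w D : List (Fin 4)} (g : Glued x y U w D) (r : ℕ)
    (h1 : U.length + D.length ≤ r + 2) (h2 : ArchRuns r w) : ArchRuns r (U ++ w ++ D) := by
  have hU := List.length_pos_iff.2 g.sp.U_ne
  have hD := List.length_pos_iff.2 g.sp.D_ne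
  intro a b ha hab
  rcases lt_or_ge b a with hba | hba
  · rw [cntI_eq_zero _ _ _ (fun v _ => by omega)]
    exact Nat.zero_le _
  rcases lt_trichotomy a (lev (ep 0 U)) with h3 | h3 | h3
  · rcases lt_or_ge b (lev (ep 0 U)) with h4 | h4
    · have := g.cntI_low a b ha h4
      omega
    · exact absurd g.cut_at (hab _ h3.le h4)
  · exact absurd g.cut_at (hab _ h3.le (by omega))
  · rw [g.cntI_gt a b h3]
    apply h2 _ _ (by omega)
    intro k hk1 hk2 hc
    refine hab (k + lev (ep 0 U)) (by omega) (by omega) ?_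
    rw [g.cut_gt _ (by omega), add_sub_cancel_right]
    exact hc

lemma cntI_split (l : List (ℤ × ℤ)) (a h b : ℤ) (h1 : a ≤ h) (h2 : h ≤ b) :
    cntI l a (h - 1) + cnt l h ≤ cntI l a b := by
  induction l with
  | nil => simp [cntI, cnt]
  | cons p l ih =>
    rw [cntI_cons, cnt_cons, cntI_cons]
    split_ifs <;> omega

lemma glued_inj {m : ℕ} {U w D U2 w2 D2 : List (Fin 4)} (g : Glued 1 1 U w D)
    (g2 : Glued 1 1 U2 w2 D2) (e : U ++ w ++ D = U2 ++ w2 ++ D2)
    (hl : U.length + D.length = m) (hl2 : U2.length + D2.length = m) :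
    U = U2 ∧ w = w2 ∧ D = D2 := by
  have key : ∀ {U w D U2 w2 D2 : List (Fin 4)}, Glued 1 1 U w D → Glued 1 1 U2 w2 D2 →
      U ++ w ++ D = U2 ++ w2 ++ D2 → U.length + D.length = m → U2.length + D2.length = m →
      ¬ lev (ep 0 U) < lev (ep 0 U2) := by
    intro U w D U2 w2 D2 g g2 e hl hl2 hlt
    have h1 := g.cntI_low_eq
    have h2 := g2.cntI_low_eq
    have h3 := g.cut_at.1
    rw [← e] at h2
    have h4 := cntI_split (vt 0 (U ++ w ++ D)) 1 (lev (ep 0 U)) (lev (ep 0 U2) - 1)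
      (by have := g.sp.hpos; omega) (by omega)
    have hU := List.length_pos_iff.2 g.sp.U_ne
    have hD := List.length_pos_iff.2 g.sp.D_ne
    have hU2 := List.length_pos_iff.2 g2.sp.U_ne
    have hD2 := List.length_pos_iff.2 g2.sp.D_ne
    omega
  have hh : lev (ep 0 U) = lev (ep 0 U2) := by
    rcases lt_trichotomy (lev (ep 0 U)) (lev (ep 0 U2)) with h | h | h
    · exact absurd h (key g g2 e hl hl2)
    · exact h
    · exact absurd h (key g2 g e.symm hl2 hl)
  rw [List.append_assoc, List.append_assoc] at e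
  obtain ⟨h1, h2⟩ := first_unique (lev (ep 0 U)) U (w ++ D) U2 (w2 ++ D2) e rfl
    (fun v hv => (g.sp.lev_U v hv).2) hh.symm
    (fun v hv => by rw [hh]; exact (g2.sp.lev_U v hv).2)
  obtain ⟨h3, h4⟩ := last_unique w D w2 D2 h2 g.arch.lev_ep (fun v hv => g.sp.lev_D_tail v hv)
    g2.arch.lev_ep (fun v hv => g2.sp.lev_D_tail v hv)
  exact ⟨h1, h3, h4⟩

lemma glued_of_good {p : List (Fin 4) × List (Fin 4)} (hp : Good p) {w : List (Fin 4)}
    (hw : Arch 1 w) : Glued 1 1 p.1 w p.2 :=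
  ⟨hp.1, hw, by
    have := hp.2.2
    rw [show ((p.1, p.2) : List (Fin 4) × List (Fin 4)) = p from rfl, this, add_zero], hp.2.1⟩

lemma step_card (m r N : ℕ) (hr : 2 * m + 2 ≤ r) :
    (Qs m).card * (ArchSet r 1 N).card ≤ (ArchSet r 1 (N + (2 * m + 4))).card := by
  rw [← card_product]
  apply card_le_card_of_injOn (fun q => q.1.1 ++ q.2 ++ q.1.2)
  · intro q hq
    rw [mem_coe, mem_product, mem_Qs, mem_ArchSet] at hq
    obtain ⟨⟨h1, h2⟩, h3, h4, h5⟩ := hq
    have g := glued_of_good h1 h4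
    rw [mem_coe, mem_ArchSet]
    refine ⟨?_, g.arch_total, runs_of g r (by omega) h5⟩
    simp only [List.length_append]
    omega
  · intro q hq q' hq' h
    rw [mem_coe, mem_product, mem_Qs, mem_ArchSet] at hq hq'
    obtain ⟨⟨h1, h2⟩, h3, h4, h5⟩ := hq
    obtain ⟨⟨h1', h2'⟩, h3', h4', h5'⟩ := hq'
    obtain ⟨e1, e2, e3⟩ := glued_inj (glued_of_good h1 h4) (glued_of_good h1' h4') h h2 h2'
    exact Prod.ext (Prod.ext e1 e3) e2

lemma good_basic : Good (([0], [2]) : List (Fin 4) × List (Fin 4)) := by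
  refine ⟨⟨?_, ?_, ?_, ?_, ?_, ?_⟩, ?_, ?_⟩
  · simp [ep, dv, lev]
  · simp [ep, dv, lev]
  · decide
  · decide
  · intro p hp; simp at hp
  · intro p hp; simp at hp
  · unfold Disj jump
    simp [ep, dv, vt, vs, List.Disjoint]
    decide
  · simp [jump, ep, dv]

lemma step_basic (r N : ℕ) : (ArchSet r 1 N).card ≤ (ArchSet r 1 (N + 2)).card := by
  apply card_le_card_of_injOn (fun q => [0] ++ q ++ [2])
  · intro q hq
    rw [mem_coe, mem_ArchSet] at hq
    obtain ⟨h3, h4, h5⟩ := hq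
    have g := glued_of_good good_basic h4
    rw [mem_coe, mem_ArchSet]
    refine ⟨?_, g.arch_total, runs_of g r (by simp) h5⟩
    simp only [List.length_append, List.length_singleton]
    omega
  · intro q _ q' _ h
    simpa using h

lemma nocut12 (h : ℤ) (hh : 1 ≤ h) : ¬ Cut (vt 0 ([1, 2] : List (Fin 4))) h := by
  intro hc
  have h1 := hc.1
  have h2 : vt 0 ([1, 2] : List (Fin 4)) = [0, (0, 1), (-1, 1)] := by decide
  have e1 : lev ((0 : ℤ), (1 : ℤ)) = 1 := by simp [lev]
  have e2 : lev ((-1 : ℤ), (1 : ℤ)) = 0 := by simp [lev]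
  have e3 : cnt [] h = 0 := rfl
  rw [h2, cnt_cons, cnt_cons, cnt_cons, lev_zero, e1, e2, e3, if_neg (by omega)] at h1
  split_ifs at h1 <;> omega

lemma cap_mem (r : ℕ) (hr : 1 ≤ r) : [1, 2] ∈ ArchSet r 1 2 := by
  have harch : Arch 1 [1, 2] := by
    refine ⟨by simp, by decide, by decide, ?_⟩
    intro p hp
    simp [dv] at hp
    rw [hp]
    simp [lev]
  rw [mem_ArchSet]
  refine ⟨rfl, harch, ?_⟩
  rw [runs_nocut harch]
  · simp; omega
  · exact nocut12

lemma arch_lower (m r : ℕ) (hr : 2 * m + 2 ≤ r) (j k : ℕ) :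
    (Qs m).card ^ k ≤ (ArchSet r 1 (2 + 2 * j + k * (2 * m + 4))).card := by
  induction k with
  | zero =>
    induction j with
    | zero =>
      have h1 : 0 < (ArchSet r 1 2).card := card_pos.2 ⟨_, cap_mem r (by omega)⟩
      simpa using h1
    | succ j ih =>
      have h1 := step_basic r (2 + 2 * j)
      simp only [pow_zero, zero_mul, add_zero] at ih ⊢
      rw [show 2 + 2 * (j + 1) = 2 + 2 * j + 2 by ring]
      omega
  | succ k ih =>
    have h1 := step_card m r (2 + 2 * j + k * (2 * m + 4)) hr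
    rw [show 2 + 2 * j + (k + 1) * (2 * m + 4) = 2 + 2 * j + k * (2 * m + 4) + (2 * m + 4) by ring,
      pow_succ, mul_comm]
    exact (Nat.mul_le_mul_left _ ih).trans h1

lemma fam_lower (h1 : K1_Stmt) (r n : ℕ) (hr : 1 ≤ r) (hn : r < 2 * n) :
    (ArchSet r 1 (2 * n - 2)).card ≤ (Fam r n).card := by
  have h := h1 r n hn (fun _ => 1)
  simp only [sum_const, nsmul_eq_mul, mul_one] at h
  have hcap : [1, 2] ∈ CapSet r 1 2 := by
    have h2 := (mem_ArchSet _ _ _ _).1 (cap_mem r hr)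
    rw [mem_CapSet]
    exact ⟨rfl, h2.2.1, nocut12, by omega⟩
  have hn1 : (1 : ℝ) ≤ n := by
    have : 1 ≤ n := by omega
    exact_mod_cast this
  have hpos : ((ArchSet r 1 (2 * n - 2)).card : ℝ) ≤ ∑ x ∈ Icc (1 : ℤ) r, ∑ M ∈ range (r + 2),
      ((CapSet r x M).card : ℝ) * ((ArchSet r x (2 * n - M)).card : ℝ) := by
    refine le_trans ?_ (single_le_sum (f := fun x => ∑ M ∈ range (r + 2),
      ((CapSet r x M).card : ℝ) * ((ArchSet r x (2 * n - M)).card : ℝ))
      (fun x _ => sum_nonneg fun M _ => by positivity) (a := (1 : ℤ)) (by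
        rw [mem_Icc]; constructor <;> omega))
    refine le_trans ?_ (single_le_sum (f := fun M =>
      ((CapSet r 1 M).card : ℝ) * ((ArchSet r 1 (2 * n - M)).card : ℝ))
      (fun x _ => by positivity) (a := 2) (by rw [mem_range]; omega))
    have hc : (1 : ℝ) ≤ ((CapSet r 1 2).card : ℝ) := by
      have : 1 ≤ (CapSet r 1 2).card := card_pos.2 ⟨_, hcap⟩
      exact_mod_cast this
    have : (0 : ℝ) ≤ ((ArchSet r 1 (2 * n - 2)).card : ℝ) := by positivity
    nlinarith
  have hpos0 : (0 : ℝ) ≤ ((ArchSet r 1 (2 * n - 2)).card : ℝ) := by positivity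
  have : ((ArchSet r 1 (2 * n - 2)).card : ℝ) ≤ ((Fam r n).card : ℝ) := by
    rw [h]
    nlinarith
  exact_mod_cast this

lemma tendsto_rate : Tendsto (fun m : ℕ => (Real.log (W m).card - Real.log (4 * m)) / ((m : ℝ) + 2))
    atTop (𝓝 Lc) := by
  have hlog : Tendsto (fun n : ℕ => Real.log (4 * n) / n) atTop (𝓝 0) := by
    have h2 : Tendsto (fun x : ℝ => Real.log x / x) atTop (𝓝 0) := by
      have := Real.isLittleO_log_id_atTop.tendsto_div_nhds_zero
      simpa using this
    have h3 : Tendsto (fun n : ℕ => (4 : ℝ) * (n : ℝ)) atTop atTop :=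
      tendsto_natCast_atTop_atTop.const_mul_atTop (by norm_num)
    have h4 := (h2.comp h3).const_mul 4
    rw [mul_zero] at h4
    refine h4.congr' ?_
    filter_upwards [eventually_ge_atTop 1] with n hn
    have : (n : ℝ) ≠ 0 := by positivity
    simp only [Function.comp_apply]
    field_simp
  have hfrac : Tendsto (fun m : ℕ => (m : ℝ) / ((m : ℝ) + 2)) atTop (𝓝 1) := by
    have h1 : Tendsto (fun m : ℕ => 1 - 2 / ((m : ℝ) + 2)) atTop (𝓝 (1 - 0)) := by
      apply Tendsto.sub tendsto_const_nhds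
      apply tendsto_const_nhds.div_atTop
      exact tendsto_atTop_add_const_right _ _ tendsto_natCast_atTop_atTop
    rw [sub_zero] at h1
    refine h1.congr fun m => ?_
    have : (m : ℝ) + 2 ≠ 0 := by positivity
    field_simp
    ring
  have h := (tendsto_W.sub hlog).mul hfrac
  rw [sub_zero, mul_one] at h
  refine h.congr' ?_
  filter_upwards [eventually_ge_atTop 1] with m hm
  have : (m : ℝ) ≠ 0 := by positivity
  have h2 : (m : ℝ) + 2 ≠ 0 := by positivity
  field_simp

theorem k7growth (h1 : K1_Stmt) : K7growth_Stmt := by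
  intro ε hε
  have hev : ∀ᶠ m : ℕ in atTop, Lc - ε / 2 <
      (Real.log (W m).card - Real.log (4 * m)) / ((m : ℝ) + 2) :=
    tendsto_rate.eventually (lt_mem_nhds (by linarith))
  obtain ⟨m, hm1, hm2⟩ := (hev.and (eventually_ge_atTop 2)).exists
  refine ⟨2 * m + 2, ?_⟩
  set q : ℝ := Real.log (Qs m).card with hq
  have hWm := W_pos m (by omega)
  have hm0 : (0 : ℝ) < m := by
    have : 0 < m := by omega
    exact_mod_cast this
  have hQ : (W m).card ≤ 4 * m * (Qs m).card :=
    (W_le_dcan m hm2).trans (Nat.mul_le_mul_left _ (dcan_le_Qs m hm2))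
  have hQ1 : 1 ≤ (Qs m).card := by
    by_contra hcon
    have : (Qs m).card = 0 := by omega
    rw [this, mul_zero] at hQ
    omega
  have hQr : (1 : ℝ) ≤ (Qs m).card := by exact_mod_cast hQ1
  have hq0 : 0 ≤ q := Real.log_nonneg hQr
  have hq1 : Real.log (W m).card - Real.log (4 * m) ≤ q := by
    have h2 : Real.log (W m).card ≤ Real.log (4 * m) + q := by
      rw [hq, ← Real.log_mul (by positivity) (by positivity)]
      apply Real.log_le_log (by exact_mod_cast hWm)
      exact_mod_cast hQ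
    linarith
  have hq2 : Lc - ε / 2 < q / ((m : ℝ) + 2) :=
    lt_of_lt_of_le hm1 (div_le_div_of_nonneg_right hq1 (by positivity))
  obtain ⟨n0, hn0⟩ := exists_nat_gt (((m : ℝ) + 4) * |Lc - ε / 2| / (ε / 2))
  filter_upwards [eventually_ge_atTop (max n0 (m + 4))] with n hn
  have hn1 : n0 ≤ n := le_trans (le_max_left _ _) hn
  have hn2 : m + 4 ≤ n := le_trans (le_max_right _ _) hn
  have hf := fam_lower h1 (2 * m + 2) n (by omega) (by omega)
  set k := (n - 2) / (m + 2) with hk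
  set j := (n - 2) % (m + 2) with hj
  have hdiv : (m + 2) * k + j = n - 2 := Nat.div_add_mod _ _
  have hjlt : j < m + 2 := Nat.mod_lt _ (by omega)
  have ha := arch_lower m (2 * m + 2) le_rfl j k
  have he : 2 + 2 * j + k * (2 * m + 4) = 2 * n - 2 := by
    have : k * (2 * m + 4) = 2 * ((m + 2) * k) := by ring
    omega
  rw [he] at ha
  have hc : ((Qs m).card : ℝ) ^ k ≤ ((Fam (2 * m + 2) n).card : ℝ) := by
    exact_mod_cast ha.trans hf
  have hexp : ((Qs m).card : ℝ) ^ k = Real.exp (k * q) := by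
    rw [hq, mul_comm, Real.exp_mul, Real.exp_log (by positivity), Real.rpow_natCast]
  rw [hexp] at hc
  refine le_trans (Real.exp_le_exp.2 ?_) hc
  -- n (Lc - ε) ≤ k q
  have hk1 : (n : ℝ) - (m + 4) ≤ k * ((m : ℝ) + 2) := by
    have : n ≤ (m + 2) * k + (m + 4) := by omega
    have h3 : (n : ℝ) ≤ ((m : ℝ) + 2) * k + ((m : ℝ) + 4) := by exact_mod_cast this
    linarith
  have hk2 : ((n : ℝ) - (m + 4)) * (q / ((m : ℝ) + 2)) ≤ k * q := by
    have h4 : (0 : ℝ) ≤ q / ((m : ℝ) + 2) := by positivity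
    calc ((n : ℝ) - (m + 4)) * (q / ((m : ℝ) + 2)) ≤ (k * ((m : ℝ) + 2)) * (q / ((m : ℝ) + 2)) :=
          mul_le_mul_of_nonneg_right hk1 h4
      _ = k * q := by
          have : (m : ℝ) + 2 ≠ 0 := by positivity
          field_simp
  have hn3 : (0 : ℝ) ≤ (n : ℝ) - (m + 4) := by
    have : ((m + 4 : ℕ) : ℝ) ≤ n := by exact_mod_cast hn2
    push_cast at this
    linarith
  have hk3 : ((n : ℝ) - (m + 4)) * (Lc - ε / 2) ≤ ((n : ℝ) - (m + 4)) * (q / ((m : ℝ) + 2)) :=
    mul_le_mul_of_nonneg_left hq2.le hn3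
  have hn4 : ((m : ℝ) + 4) * |Lc - ε / 2| ≤ n * (ε / 2) := by
    have h5 : ((m : ℝ) + 4) * |Lc - ε / 2| / (ε / 2) < n :=
      lt_of_lt_of_le hn0 (by exact_mod_cast hn1)
    rw [div_lt_iff₀ (by linarith)] at h5
    exact h5.le
  have hn5 : ((m : ℝ) + 4) * (Lc - ε / 2) ≤ ((m : ℝ) + 4) * |Lc - ε / 2| :=
    mul_le_mul_of_nonneg_left (le_abs_self _) (by positivity)
  nlinarith

end Pool.Agent.SapR.M41
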