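import Pool.Agent.Lib_helper41.SapR.FinalDefs
import Pool.Agent.Lib_helper41.SapR.K7
import Pool.Agent.Lib_helper41.SapR.Model
import Pool.Agent.Lib_helper58.SapR.K1
import Pool.Agent.Lib_helper66.SapR.K6
import Pool.Agent.Lib_helper27.Transl

/-!
Transfer of the area law from the area models to the families in the frozen encoding.
-/

set_option autoImplicit false

namespace Pool.Agent.SapR.M41

open Finset Pool.Agent.Lib27 Filter Topology Pool.Agent.AreaLaw

lemma onDiag_eq (n : ℕ) (s : Fin (2 * n) → Fin 4) (a b : ℤ) :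
    onDiag n s a b = cntI (vs 0 (List.ofFn s)) a b := by
  rw [H58.cntI_eq, List.length_ofFn]
  unfold onDiag
  apply card_bij (fun k _ => k.val)
  · intro k hk
    rw [mem_filter] at hk ⊢
    refine ⟨by rw [mem_range]; exact k.2, ?_⟩
    unfold H58.L lev
    rw [← pos_eq n s k.val k.2.le]
    exact hk.2
  · intro k _ l _ h
    exact Fin.ext h
  · intro j hj
    rw [mem_filter, mem_range] at hj
    refine ⟨⟨j, hj.1⟩, ?_, rfl⟩
    rw [mem_filter]
    refine ⟨mem_univ _, ?_⟩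
    have := hj.2
    unfold H58.L lev at this
    rw [← pos_eq n s j hj.1.le] at this
    exact this

lemma cnt_eq_cntI (l : List (ℤ × ℤ)) (h : ℤ) : cnt l h = cntI l h h := by
  unfold cnt cntI
  congr 1
  funext p
  congr 1
  exact propext ⟨fun h => ⟨h.ge, h.le⟩, fun h => le_antisymm h.2 h.1⟩

lemma isCut_iff (n : ℕ) (s : Fin (2 * n) → Fin 4) (h : ℤ) :
    IsCut n s h ↔ Cut (vs 0 (List.ofFn s)) h := by
  unfold IsCut Cut
  rw [cnt_eq_cntI, cnt_eq_cntI, cnt_eq_cntI, onDiag_eq, onDiag_eq, onDiag_eq]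

lemma short_iff (r n : ℕ) (s : Fin (2 * n) → Fin 4) : s ∈ Short r n ↔ List.ofFn s ∈ Fam r n := by
  classical
  rw [Short, mem_filter, mem_Fam, SAP_iff]
  unfold ShortRuns
  simp only [isCut_iff, onDiag_eq]

lemma ofFn_surj (n : ℕ) (l : List (Fin 4)) (hl : l.length = 2 * n) :
    ∃ s : Fin (2 * n) → Fin 4, List.ofFn s = l := by
  refine ⟨fun i => l.getD i.val 0, ?_⟩
  apply List.ext_getElem
  · simp [hl]
  · intro i h1 h2
    simp [h2]

lemma image_short (r n : ℕ) : (Short r n).map ⟨List.ofFn, List.ofFn_injective⟩ = Fam r n := by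
  ext l
  rw [Finset.mem_map]
  constructor
  · rintro ⟨s, hs, rfl⟩
    exact (short_iff r n s).1 hs
  · intro hl
    obtain ⟨s, hs⟩ := ofFn_surj n l ((mem_W n l).1 ((mem_Fam r n l).1 hl).1).1
    exact ⟨s, by rw [short_iff, hs]; exact hl, hs⟩

lemma sum_short (r n : ℕ) (g : List (Fin 4) → ℝ) :
    ∑ s ∈ Short r n, g (List.ofFn s) = ∑ l ∈ Fam r n, g l := by
  rw [← image_short, sum_map]
  rfl

lemma card_short (r n : ℕ) : (Short r n).card = (Fam r n).card := by
  rw [← image_short, card_map]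

lemma stair_iff (n : ℕ) (hn : 1 ≤ n) (s : Fin (2 * n) → Fin 4) :
    s ∈ Staircase n ↔ List.ofFn s ∈ Stair n := by
  classical
  rw [Staircase, Stair, mem_filter, mem_filter, SAP_iff]
  have hg : ∀ (i : ℕ) (hi : i < 2 * n) (d : Fin 4), (List.ofFn s).getD i d = s ⟨i, hi⟩ := by
    intro i hi d
    rw [List.getD_eq_getElem _ _ (by simpa using hi)]
    simp
  apply and_congr Iff.rfl
  apply and_congr
  · rw [hg 0 (by omega)]
    constructor
    · intro h
      exact h ⟨0, by omega⟩ rfl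
    · intro h i hi
      rw [← h]
      congr 1
      exact Fin.ext hi
  · apply exists_congr
    intro m
    apply and_congr_right
    intro hm
    constructor
    · intro h
      constructor
      · intro i hi
        rw [hg i (by omega)]
        exact (h ⟨i, by omega⟩).1 hi
      · intro i hi hi2
        rw [hg i hi2]
        exact (h ⟨i, hi2⟩).2 hi
    · rintro ⟨h1, h2⟩ i
      constructor
      · intro hi
        have := h1 i.val hi
        rwa [hg i.val i.2] at this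
      · intro hi
        have := h2 i.val hi i.2
        rwa [hg i.val i.2] at this

lemma image_stair (n : ℕ) (hn : 1 ≤ n) :
    (Staircase n).map ⟨List.ofFn, List.ofFn_injective⟩ = Stair n := by
  classical
  ext l
  rw [Finset.mem_map]
  constructor
  · rintro ⟨s, hs, rfl⟩
    exact (stair_iff n hn s).1 hs
  · intro hl
    have hl' := hl
    rw [Stair, mem_filter] at hl'
    obtain ⟨s, hs⟩ := ofFn_surj n l ((mem_W n l).1 hl'.1).1
    exact ⟨s, by rw [stair_iff n hn, hs]; exact hl, hs⟩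

lemma sum_stair (n : ℕ) (hn : 1 ≤ n) (g : List (Fin 4) → ℝ) :
    ∑ s ∈ Staircase n, g (List.ofFn s) = ∑ l ∈ Stair n, g l := by
  rw [← image_stair n hn, sum_map]
  rfl

open Classical in
/-- distribution function of `f / E[f]` on a finite set -/
noncomputable def gcdf {α : Type} (A : Finset α) (f : α → ℝ) (x : ℝ) : ℝ :=
  ((A.filter (fun s => f s * (A.card : ℝ) ≤ x * ∑ t ∈ A, f t)).card : ℝ) / (A.card : ℝ)

lemma gcdf_congr {α β : Type} (A : Finset α) (B : Finset β) (f : α → ℤ) (g : β → ℤ) (c : ℝ)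
    (hc : 0 < c) (h : ∀ F : ℤ → ℝ, ∑ a ∈ A, F (f a) = c * ∑ b ∈ B, F (g b)) (x : ℝ) :
    gcdf A (fun a => (f a : ℝ)) x = gcdf B (fun b => (g b : ℝ)) x := by
  classical
  have h1 : (A.card : ℝ) = c * (B.card : ℝ) := by
    have := h (fun _ => 1)
    simpa using this
  have h2 : ∑ a ∈ A, (f a : ℝ) = c * ∑ b ∈ B, (g b : ℝ) := h (fun t => (t : ℝ))
  have h3 := h (fun t => if (t : ℝ) * (A.card : ℝ) ≤ x * ∑ a ∈ A, (f a : ℝ) then 1 else 0)
  have h4 : ∀ b : β, ((g b : ℝ) * (A.card : ℝ) ≤ x * ∑ a ∈ A, (f a : ℝ)) ↔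
      ((g b : ℝ) * (B.card : ℝ) ≤ x * ∑ b ∈ B, (g b : ℝ)) := by
    intro b
    rw [h1, h2]
    have e1 : (g b : ℝ) * (c * (B.card : ℝ)) = c * ((g b : ℝ) * (B.card : ℝ)) := by ring
    have e2 : x * (c * ∑ b ∈ B, (g b : ℝ)) = c * (x * ∑ b ∈ B, (g b : ℝ)) := by ring
    rw [e1, e2]
    exact mul_le_mul_iff_right₀ hc
  unfold gcdf
  rw [card_filter, card_filter]
  push_cast
  rw [h3]
  simp only [h4]
  rw [h1]
  exact mul_div_mul_left _ _ hc.ne'

lemma areaCdf_eq (n : ℕ) (F : Finset (Fin (2 * n) → Fin 4)) (x : ℝ) :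
    areaCdf n F x = gcdf F (fun s => ((|dbl 0 (List.ofFn s)| : ℤ) : ℝ)) x := by
  classical
  have h1 : ∀ s : Fin (2 * n) → Fin 4, area n s = ((|dbl 0 (List.ofFn s)| : ℤ) : ℝ) / 2 := by
    intro s
    rw [area_eq]
    rfl
  unfold areaCdf gcdf
  simp only [h1]
  rw [← sum_div]
  congr 3
  ext s
  rw [mem_filter, mem_filter]
  apply and_congr_right
  intro _
  have e1 : ((|dbl 0 (List.ofFn s)| : ℤ) : ℝ) / 2 * (F.card : ℝ) =
      (((|dbl 0 (List.ofFn s)| : ℤ) : ℝ) * (F.card : ℝ)) / 2 := by ring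
  have e2 : x * ((∑ i ∈ F, ((|dbl 0 (List.ofFn i)| : ℤ) : ℝ)) / 2) =
      (x * ∑ i ∈ F, ((|dbl 0 (List.ofFn i)| : ℤ) : ℝ)) / 2 := by ring
  rw [e1, e2]
  constructor <;> intro h <;> linarith

/-- the area model of the family `Fam r` -/
noncomputable def mdl (r : ℕ) (hr : 1 ≤ r) : Gap.AreaModel :=
  model (k2 k3) H66.k4 H66.k5far H66.k5flip H66.k5size H66.k5basic H66.k5cap r hr

lemma mdl_cdf (r : ℕ) (hr : 1 ≤ r) (n : ℕ) (x : ℝ) :
    (mdl r hr).cdf n x =
      gcdf (Om r n) (fun q => ((|dbl 0 q.2.2.2 + dbl 0 q.2.2.1| : ℤ) : ℝ)) x := by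
  classical
  have hcard : Fintype.card ((mdl r hr).Omega n) = (Om r n).card := Fintype.card_coe _
  have hsum : ∑ y : (mdl r hr).Omega n, (mdl r hr).T n y =
      ∑ q ∈ Om r n, ((|dbl 0 q.2.2.2 + dbl 0 q.2.2.1| : ℤ) : ℝ) :=
    sum_coe_sort (Om r n) (fun q => ((|dbl 0 q.2.2.2 + dbl 0 q.2.2.1| : ℤ) : ℝ))
  unfold Gap.AreaModel.cdf gcdf
  rw [hcard, hsum]
  congr 1
  rw [card_filter, card_filter]
  simp only [Nat.cast_sum, Nat.cast_ite, Nat.cast_one, Nat.cast_zero]
  exact sum_coe_sort (Om r n) (fun q => if ((|dbl 0 q.2.2.2 + dbl 0 q.2.2.1| : ℤ) : ℝ) *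
    ((Om r n).card : ℝ) ≤ x * ∑ q ∈ Om r n, ((|dbl 0 q.2.2.2 + dbl 0 q.2.2.1| : ℤ) : ℝ)
    then (1 : ℝ) else 0)

lemma short_cdf (r : ℕ) (hr : 1 ≤ r) (n : ℕ) (hn : r < 2 * n) (x : ℝ) :
    areaCdf n (Short r n) x = (mdl r hr).cdf n x := by
  rw [areaCdf_eq, mdl_cdf]
  apply gcdf_congr (Short r n) (Om r n) (fun s => |dbl 0 (List.ofFn s)|)
    (fun q => |dbl 0 q.2.2.2 + dbl 0 q.2.2.1|) (4 * n) (by
      have : (0 : ℝ) < n := by
        have : 0 < n := by omega
        exact_mod_cast this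
      positivity)
  intro F
  rw [sum_short r n (fun l => F |dbl 0 l|)]
  have h := H58.k1 r n hn (fun t => F |t|)
  simp only [abs_abs] at h
  rw [h]
  congr 1
  unfold Om
  rw [sum_sigma]
  apply sum_congr rfl
  intro a _
  rw [sum_sigma]
  apply sum_congr rfl
  intro M _
  rw [sum_product]

lemma stair_cdf (n : ℕ) (hn : 2 ≤ n) (x : ℝ) :
    areaCdf n (Staircase n) x = areaCdf n (Short 1 n) x := by
  rw [areaCdf_eq, areaCdf_eq]
  symm
  apply gcdf_congr (Short 1 n) (Staircase n) (fun s => |dbl 0 (List.ofFn s)|)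
    (fun s => |dbl 0 (List.ofFn s)|) (4 * n) (by
      have : (0 : ℝ) < n := by
        have : 0 < n := by omega
        exact_mod_cast this
      positivity)
  intro F
  rw [sum_short 1 n (fun l => F |dbl 0 l|), sum_stair n (by omega) (fun l => F |dbl 0 l|)]
  exact H66.k6 n hn F

/-- The area law for every fixed `r` and for the staircase polygons. -/
theorem law_fixed (hF : Gap.FINAL_Stmt) : ∃ μ : MeasureTheory.Measure ℝ,
    MeasureTheory.IsProbabilityMeasure μ ∧ ∀ x : ℝ, μ {x} = 0 →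
      Tendsto (fun n : ℕ => areaCdf n (Staircase n) x) atTop (𝓝 (μ (Set.Iic x)).toReal) ∧
      ∀ r : ℕ, 1 ≤ r →
        Tendsto (fun n : ℕ => areaCdf n (Short r n) x) atTop (𝓝 (μ (Set.Iic x)).toReal) := by
  obtain ⟨μ, hμ, h⟩ := hF
  refine ⟨μ, hμ, fun x hx => ?_⟩
  have key : ∀ r : ℕ, 1 ≤ r →
      Tendsto (fun n : ℕ => areaCdf n (Short r n) x) atTop (𝓝 (μ (Set.Iic x)).toReal) := by
    intro r hr
    refine (h (mdl r hr) x hx).congr' ?_
    filter_upwards [eventually_gt_atTop r] with n hn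
    exact (short_cdf r hr n (by omega) x).symm
  refine ⟨?_, key⟩
  refine (key 1 le_rfl).congr' ?_
  filter_upwards [eventually_ge_atTop 2] with n hn
  exact (stair_cdf n hn x).symm

/-- Growth of the families. -/
theorem growth_fixed : ∀ ε : ℝ, 0 < ε → ∃ r : ℕ, ∀ᶠ n : ℕ in atTop,
    Real.exp (-(ε * n)) * ((SAP n).card : ℝ) ≤ ((Short r n).card : ℝ) := by
  intro ε hε
  obtain ⟨r, hr⟩ := k7growth H58.k1 (ε / 2) (by linarith)
  refine ⟨r, ?_⟩
  have hW : ∀ᶠ n : ℕ in atTop, Real.log (W n).card / n < Lc + ε / 2 :=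
    tendsto_W.eventually (gt_mem_nhds (by linarith))
  filter_upwards [hr, hW, eventually_ge_atTop 1] with n h1 h2 hn
  have hn0 : (0 : ℝ) < n := by exact_mod_cast hn
  have hpos : (0 : ℝ) < (W n).card := by exact_mod_cast W_pos n hn
  rw [div_lt_iff₀ hn0] at h2
  rw [card_SAP, card_short]
  refine le_trans ?_ h1
  rw [← Real.exp_log hpos, ← Real.exp_add]
  apply Real.exp_le_exp.2
  nlinarith

lemma short_mono (r r' n : ℕ) (h : r ≤ r') : Short r n ⊆ Short r' n := by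
  intro s hs
  rw [short_iff] at hs ⊢
  exact k7mono.1 r r' n h hs

end Pool.Agent.SapR.M41
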