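import Pool.Agent.Lib_helper27.Defs

/-!
Definitions for the result on self-avoiding polygons with short runs of non-cut diagonals.
-/

set_option autoImplicit false

namespace Pool.Agent.AreaLaw

open Finset MeasureTheory

open Classical in
/-- The staircase polygons of perimeter `2n`, each given once: the word starts with an East step,
and East and North steps are followed by West and South steps. -/
noncomputable def Staircase (n : ℕ) : Finset (Fin (2 * n) → Fin 4) :=
  (SAP n).filter (fun s => (∀ i : Fin (2 * n), i.val = 0 → s i = 0) ∧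
    ∃ m : ℕ, m ≤ 2 * n ∧ ∀ i : Fin (2 * n),
      (i.val < m → (s i = 0 ∨ s i = 1)) ∧ (m ≤ i.val → (s i = 2 ∨ s i = 3)))

/-- The number of vertices of the polygon `s` on the diagonals `x + y = h` with `a ≤ h ≤ b`. -/
def onDiag (n : ℕ) (s : Fin (2 * n) → Fin 4) (a b : ℤ) : ℕ :=
  (Finset.univ.filter (fun k : Fin (2 * n) => a ≤ (pos n s k).1 + (pos n s k).2 ∧
    (pos n s k).1 + (pos n s k).2 ≤ b)).card

/-- The diagonal `x + y = h` cuts the polygon `s`: it contains exactly two vertices of `s`, and
both neighbouring diagonals are visited. -/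
def IsCut (n : ℕ) (s : Fin (2 * n) → Fin 4) (h : ℤ) : Prop :=
  onDiag n s h h = 2 ∧ 0 < onDiag n s (h - 1) (h - 1) ∧ 0 < onDiag n s (h + 1) (h + 1)

open Classical in
/-- The self-avoiding polygons of perimeter `2n` (given with a starting vertex and a direction)
for which every run of consecutive diagonals, none of which cuts the polygon, contains at most
`r` vertices of the polygon. -/
noncomputable def Short (r n : ℕ) : Finset (Fin (2 * n) → Fin 4) :=
  (SAP n).filter (fun s => ∀ a b : ℤ, (∀ h : ℤ, a ≤ h → h ≤ b → ¬ IsCut n s h) →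
    onDiag n s a b ≤ r)

open Classical in
/-- `P(A ≤ x * E[A])` for the area `A` of a uniformly random word of the finite set `F`. -/
noncomputable def areaCdf (n : ℕ) (F : Finset (Fin (2 * n) → Fin 4)) (x : ℝ) : ℝ :=
  ((F.filter (fun s => area n s * (F.card : ℝ) ≤ x * ∑ t ∈ F, area n t)).card : ℝ) /
    (F.card : ℝ)

end Pool.Agent.AreaLaw
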