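import Pool.Agent.Lib_helper41.SapR.Kern

/-!
The integer area functional on arches (sum of trapezoid areas), defined along the
decomposition into pieces, and its comparison with the shoelace sum (part of K8).
-/

set_option autoImplicit false

namespace Pool.Agent.SapR.M41

open Finset Pool.Agent.Lib27 Filter Topology

lemma mem_ArchSet (r : ℕ) (x : ℤ) (N : ℕ) (w : List (Fin 4)) :
    w ∈ ArchSet r x N ↔ w.length = N ∧ Arch x w ∧ ArchRuns r w := by
  classical
  rw [ArchSet, mem_filter, mem_words]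

lemma mem_CapSet (r : ℕ) (x : ℤ) (N : ℕ) (w : List (Fin 4)) :
    w ∈ CapSet r x N ↔ w.length = N ∧ Arch x w ∧ (∀ h : ℤ, 1 ≤ h → ¬ Cut (vt 0 w) h) ∧
      N ≤ r + 1 := by
  classical
  rw [CapSet, mem_filter, mem_words]

/-- `q = (p, v)` is a decomposition of the arch `w` of gap `x`. -/
def Dec (r : ℕ) (x : ℤ) (w : List (Fin 4)) (q : PW × List (Fin 4)) : Prop :=
  q.1 ∈ allowed r x ∧
  q.2 ∈ ArchSet r (x + jump q.1) (w.length - (q.1.1.length + q.1.2.length)) ∧
  w = q.1.1 ++ q.2 ++ q.1.2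

lemma Dec_lt (r : ℕ) (x : ℤ) (w : List (Fin 4)) (q : PW × List (Fin 4)) (h : Dec r x w q) :
    q.2.length < w.length := by
  have h1 := Pc_len r q.1 ((mem_allowed _ _ _).1 h.1).1
  rw [h.2.2]
  simp only [List.length_append]
  omega

open Classical in
/-- The integer area functional of an arch. -/
noncomputable def Ar (r : ℕ) (w : List (Fin 4)) : ℕ :=
  if h : ∃ q : PW × List (Fin 4), Dec r (ep 0 w).2 w q then
    have : (h.choose).2.length < w.length := Dec_lt r _ w _ h.choose_spec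
    Ar r (h.choose).2 +
      (ht (h.choose).1 * (2 * (ep 0 w).2 + jump (h.choose).1)).toNat
  else 0
termination_by w.length

lemma Arch_ep (x : ℤ) (w : List (Fin 4)) (h : Arch x w) : (ep 0 w).2 = x := by
  rw [h.2.1]

open Classical in
/-- Counting form of K2. -/
lemma k2_count (h2 : K2_Stmt) (r : ℕ) (x : ℤ) (N : ℕ) (hx : 1 ≤ x) (w : List (Fin 4)) :
    (if w ∈ ArchSet r x N then 1 else 0 : ℝ) = (if w ∈ CapSet r x N then 1 else 0) +
      (((allowed r x).sigma
        (fun p => ArchSet r (x + jump p) (N - (p.1.length + p.2.length)))).filter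
        (fun q => q.1.1 ++ q.2 ++ q.1.2 = w)).card := by
  have := h2 r x N hx (fun v => if v = w then 1 else 0)
  rw [sum_ite_eq', sum_ite_eq'] at this
  rw [this, card_filter]
  push_cast
  rw [sum_sigma]

lemma dec_mem (h2 : K2_Stmt) (r : ℕ) (x : ℤ) (hx : 1 ≤ x) (w : List (Fin 4))
    (q : PW × List (Fin 4)) (h : Dec r x w q) : w ∈ ArchSet r x w.length ∧
      w ∉ CapSet r x w.length ∧ ∀ q', Dec r x w q' → q' = q := by
  classical
  have hk := k2_count h2 r x w.length hx w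
  have hin : (⟨q.1, q.2⟩ : (_ : PW) × List (Fin 4)) ∈ (((allowed r x).sigma
        (fun p => ArchSet r (x + jump p) (w.length - (p.1.length + p.2.length)))).filter
        (fun q => q.1.1 ++ q.2 ++ q.1.2 = w)) := by
    rw [mem_filter, mem_sigma]
    exact ⟨⟨h.1, h.2.1⟩, h.2.2.symm⟩
  have hpos : 1 ≤ (((allowed r x).sigma
        (fun p => ArchSet r (x + jump p) (w.length - (p.1.length + p.2.length)))).filter
        (fun q => q.1.1 ++ q.2 ++ q.1.2 = w)).card := card_pos.2 ⟨_, hin⟩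
  have hposR : (1 : ℝ) ≤ ((((allowed r x).sigma
        (fun p => ArchSet r (x + jump p) (w.length - (p.1.length + p.2.length)))).filter
        (fun q => q.1.1 ++ q.2 ++ q.1.2 = w)).card : ℝ) := by exact_mod_cast hpos
  have h1 : w ∈ ArchSet r x w.length := by
    by_contra hn
    rw [if_neg hn] at hk
    split_ifs at hk <;> linarith
  rw [if_pos h1] at hk
  have h3 : w ∉ CapSet r x w.length := by
    intro hc
    rw [if_pos hc] at hk
    linarith
  rw [if_neg h3, zero_add] at hk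
  have hcard : (((allowed r x).sigma
        (fun p => ArchSet r (x + jump p) (w.length - (p.1.length + p.2.length)))).filter
        (fun q => q.1.1 ++ q.2 ++ q.1.2 = w)).card = 1 := by exact_mod_cast hk.symm
  refine ⟨h1, h3, fun q' h' => ?_⟩
  have hin' : (⟨q'.1, q'.2⟩ : (_ : PW) × List (Fin 4)) ∈ (((allowed r x).sigma
        (fun p => ArchSet r (x + jump p) (w.length - (p.1.length + p.2.length)))).filter
        (fun q => q.1.1 ++ q.2 ++ q.1.2 = w)) := by
    rw [mem_filter, mem_sigma]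
    exact ⟨⟨h'.1, h'.2.1⟩, h'.2.2.symm⟩
  obtain ⟨a, ha⟩ := card_eq_one.1 hcard
  rw [ha, mem_singleton] at hin hin'
  have e := hin'.trans hin.symm
  rw [Sigma.mk.injEq] at e
  exact Prod.ext e.1 (eq_of_heq e.2)

lemma dec_of_not_cap (h2 : K2_Stmt) (r : ℕ) (x : ℤ) (N : ℕ) (hx : 1 ≤ x) (w : List (Fin 4))
    (hw : w ∈ ArchSet r x N) (hc : w ∉ CapSet r x N) : ∃ q, Dec r x w q := by
  classical
  have hk := k2_count h2 r x N hx w
  have hlen := ((mem_ArchSet _ _ _ _).1 hw).1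
  rw [if_pos hw, if_neg hc, zero_add] at hk
  have hcard : (((allowed r x).sigma
        (fun p => ArchSet r (x + jump p) (N - (p.1.length + p.2.length)))).filter
        (fun q => q.1.1 ++ q.2 ++ q.1.2 = w)).card = 1 := by exact_mod_cast hk.symm
  obtain ⟨a, ha⟩ := card_eq_one.1 hcard
  have : a ∈ (((allowed r x).sigma
        (fun p => ArchSet r (x + jump p) (N - (p.1.length + p.2.length)))).filter
        (fun q => q.1.1 ++ q.2 ++ q.1.2 = w)) := by rw [ha]; simp
  rw [mem_filter, mem_sigma] at this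
  refine ⟨(a.1, a.2), this.1.1, ?_, this.2.symm⟩
  rw [hlen]
  exact this.1.2

lemma Ar_dec (h2 : K2_Stmt) (r : ℕ) (x : ℤ) (hx : 1 ≤ x) (w : List (Fin 4))
    (q : PW × List (Fin 4)) (h : Dec r x w q) :
    Ar r w = Ar r q.2 + (ht q.1 * (2 * x + jump q.1)).toNat := by
  obtain ⟨h1, h3, h4⟩ := dec_mem h2 r x hx w q h
  have hep : (ep 0 w).2 = x := Arch_ep x w ((mem_ArchSet _ _ _ _).1 h1).2.1
  have hex : ∃ q : PW × List (Fin 4), Dec r (ep 0 w).2 w q := ⟨q, by rw [hep]; exact h⟩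
  have hspec : ∀ q', Dec r (ep 0 w).2 w q' → q' = q := fun q' hq' => h4 q' (by rwa [hep] at hq')
  have hc : hex.choose = q := hspec _ hex.choose_spec
  have e1 : Ar r w = Ar r (hex.choose).2 +
      (ht (hex.choose).1 * (2 * (ep 0 w).2 + jump (hex.choose).1)).toNat := by
    conv_lhs => rw [Ar]
    rw [dif_pos hex]
  rw [e1, hc, hep]

lemma Ar_cap (h2 : K2_Stmt) (r : ℕ) (x : ℤ) (N : ℕ) (hx : 1 ≤ x) (w : List (Fin 4))
    (h : w ∈ CapSet r x N) : Ar r w = 0 := by
  obtain ⟨hl, ha, _⟩ := (mem_CapSet _ _ _ _).1 h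
  have hep : (ep 0 w).2 = x := Arch_ep x w ha
  rw [Ar, dif_neg]
  rintro ⟨q, hq⟩
  rw [hep] at hq
  have := (dec_mem h2 r x hx w q hq).2.1
  rw [hl] at this
  exact this h

lemma Ar_step (h2 : K2_Stmt) (r : ℕ) (x : ℤ) (N : ℕ) (hx : 1 ≤ x) (p : PW)
    (hp : p ∈ allowed r x) (w : List (Fin 4))
    (hw : w ∈ ArchSet r (x + jump p) (N - (p.1.length + p.2.length))) :
    Ar r (p.1 ++ w ++ p.2) = Ar r w + (ht p * (2 * x + jump p)).toNat := by
  apply Ar_dec h2 r x hx (p.1 ++ w ++ p.2) (p, w)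
  refine ⟨hp, ?_, rfl⟩
  have := ((mem_ArchSet _ _ _ _).1 hw).1
  rw [mem_ArchSet]
  refine ⟨?_, ((mem_ArchSet _ _ _ _).1 hw).2⟩
  simp only [List.length_append]
  omega

/-- The shoelace sum of an arch is the integer area up to a multiple of the length. -/
lemma near_arch (h2 : K2_Stmt) (h4 : K4_Stmt) (h5s : K5size_Stmt) (h5c : K5cap_Stmt) (r : ℕ)
    (n : ℕ) : ∀ (N : ℕ), N ≤ n → ∀ (x : ℤ), 1 ≤ x → ∀ w ∈ ArchSet r x N,
      |dbl 0 w - (Ar r w : ℤ)| ≤ (r + 2) ^ 2 * N := by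
  induction n with
  | zero =>
    intro N hN x hx w hw
    have := (h5c.2.2 r x N w hx hw).2
    omega
  | succ n ih =>
    intro N hN x hx w hw
    have hev := h5c.2.2 r x N w hx hw
    by_cases hc : w ∈ CapSet r x N
    · rw [Ar_cap h2 r x N hx w hc]
      have := (h5c.1 r x N w hx hc).2.2.2
      have hN1 : (1 : ℤ) ≤ N := by omega
      simp only [Nat.cast_zero, sub_zero]
      have h6 : ((r : ℤ) + 1) ^ 2 ≤ ((r : ℤ) + 2) ^ 2 := by
        have : (0 : ℤ) ≤ r := by positivity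
        nlinarith
      have h7 : ((r : ℤ) + 2) ^ 2 * 1 ≤ ((r : ℤ) + 2) ^ 2 * N :=
        mul_le_mul_of_nonneg_left hN1 (sq_nonneg _)
      linarith
    · obtain ⟨q, hq⟩ := dec_of_not_cap h2 r x N hx w hw hc
      have hAr := Ar_dec h2 r x hx w q hq
      have hlt := Dec_lt r x w q hq
      have hlen := ((mem_ArchSet _ _ _ _).1 hw).1
      obtain ⟨hq1, hq2, hq3⟩ := hq
      obtain ⟨hp1, hp2, hp3, hp4⟩ := (mem_allowed _ _ _).1 hq1
      have hs := h5s r q.1 hp1
      have hq2' := (mem_ArchSet _ _ _ _).1 hq2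
      have hdb := h4 x q.1 q.2 ((mem_Pc _ _).1 hp1).1.1 hq2'.2.1.2.1
      rw [← hq3] at hdb
      have hi := ih q.2.length (by omega) (x + jump q.1) hp3 q.2
        (by rw [mem_ArchSet]; exact ⟨rfl, hq2'.2⟩)
      have hpos : 0 ≤ ht q.1 * (2 * x + jump q.1) := by
        apply mul_nonneg
        · omega
        · omega
      have hto : ((ht q.1 * (2 * x + jump q.1)).toNat : ℤ) = ht q.1 * (2 * x + jump q.1) :=
        Int.toNat_of_nonneg hpos
      have hoff := hs.2.2.2.2.2.2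
      have e : dbl 0 w - (Ar r w : ℤ) = (dbl 0 q.2 - (Ar r q.2 : ℤ)) + off q.1 := by
        rw [hAr, hdb]
        push_cast
        rw [hto]
        ring
      rw [e]
      have hl2 : (q.2.length : ℤ) + 1 ≤ N := by
        have : q.2.length + 1 ≤ N := by omega
        exact_mod_cast this
      have hsq : (0 : ℤ) ≤ ((r : ℤ) + 2) ^ 2 := sq_nonneg _
      calc |(dbl 0 q.2 - (Ar r q.2 : ℤ)) + off q.1|
          ≤ |dbl 0 q.2 - (Ar r q.2 : ℤ)| + |off q.1| := abs_add_le _ _
        _ ≤ ((r : ℤ) + 2) ^ 2 * q.2.length + ((r : ℤ) + 2) ^ 2 := add_le_add hi hoff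
        _ ≤ ((r : ℤ) + 2) ^ 2 * N := by nlinarith

end Pool.Agent.SapR.M41
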