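import Pool.Agent.Lib_helper24.SapR.Stmts
import Pool.Agent.Lib_helper79.Gap.Defs3

/-!
The gap kernel of the family `Fam r` (part of K8).
-/

set_option autoImplicit false

namespace Pool.Agent.SapR.M41

open Finset Pool.Agent.Lib27 Filter Topology

/-- A pair of strands. -/
abbrev PW : Type := List (Fin 4) × List (Fin 4)

open Classical in
/-- Free pieces of half length `i.1`, height `i.2` and jump `d`. -/
noncomputable def PcT (r : ℕ) (i : ℕ × ℕ) (d : ℤ) : Finset PW :=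
  (Pc r).filter (fun p => p.1.length + p.2.length = 2 * i.1 ∧ ht p = i.2 ∧ jump p = d)

open Classical in
/-- Allowed pieces of half length `i.1`, height `i.2` from gap `g` to gap `g'`. -/
noncomputable def alT (r : ℕ) (i : ℕ × ℕ) (g g' : ℤ) : Finset PW :=
  (allowed r g).filter
    (fun p => p.1.length + p.2.length = 2 * i.1 ∧ ht p = i.2 ∧ jump p = g' - g)

lemma mem_PcT (r : ℕ) (i : ℕ × ℕ) (d : ℤ) (p : PW) : p ∈ PcT r i d ↔
    p ∈ Pc r ∧ p.1.length + p.2.length = 2 * i.1 ∧ ht p = i.2 ∧ jump p = d := by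
  classical
  rw [PcT, mem_filter]

lemma mem_alT (r : ℕ) (i : ℕ × ℕ) (g g' : ℤ) (p : PW) : p ∈ alT r i g g' ↔
    p ∈ allowed r g ∧ p.1.length + p.2.length = 2 * i.1 ∧ ht p = i.2 ∧ jump p = g' - g := by
  classical
  rw [alT, mem_filter]

lemma mem_allowed (r : ℕ) (x : ℤ) (p : PW) : p ∈ allowed r x ↔
    p ∈ Pc r ∧ 1 ≤ x ∧ 1 ≤ x + jump p ∧ Disj x p := by
  classical
  rw [allowed, mem_filter]

lemma mem_Pc (r : ℕ) (p : PW) : p ∈ Pc r ↔ FreePiece p.1 p.2 ∧
    p.1.length + p.2.length ≤ r + 2 := by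
  classical
  rw [Pc, mem_filter]
  constructor
  · exact fun h => h.2
  · intro h
    refine ⟨?_, h⟩
    rw [mem_product]
    unfold wordsUpTo
    simp only [mem_biUnion, mem_range, mem_words]
    exact ⟨⟨p.1.length, by omega, rfl⟩, ⟨p.2.length, by omega, rfl⟩⟩

lemma len1_of_pos (U : List (Fin 4)) (h : lev (ep 0 U) ≠ 0) : 1 ≤ U.length := by
  rcases U with _ | ⟨a, U⟩
  · exact absurd (by simp [lev]) h
  · simp

lemma Pc_len (r : ℕ) (p : PW) (hp : p ∈ Pc r) : 1 ≤ p.1.length ∧ 1 ≤ p.2.length := by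
  obtain ⟨⟨⟨h0, h1, _⟩, _⟩, _⟩ := (mem_Pc r p).1 hp
  exact ⟨len1_of_pos _ (by omega), len1_of_pos _ (by omega)⟩

/-- The four pieces of total length two. -/
lemma Pc_two (r : ℕ) (p : PW) (hp : p ∈ Pc r) (hl : p.1.length + p.2.length = 2) :
    p = ([0], [2]) ∨ p = ([1], [3]) ∨ p = ([0], [3]) ∨ p = ([1], [2]) := by
  have hlen := Pc_len r p hp
  obtain ⟨⟨⟨h0, h1, _⟩, _⟩, _⟩ := (mem_Pc r p).1 hp
  obtain ⟨U, D⟩ := p
  simp only at *
  have hU : U.length = 1 := by omega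
  have hD : D.length = 1 := by omega
  rw [List.length_eq_one_iff] at hU hD
  obtain ⟨a, rfl⟩ := hU
  obtain ⟨b, rfl⟩ := hD
  clear hp hlen hl
  revert h0 h1
  fin_cases a <;> fin_cases b <;> simp [ep, dv, lev]

lemma jump_ex : jump (([0], [2]) : PW) = 0 ∧ jump (([1], [3]) : PW) = 0 ∧
    jump (([0], [3]) : PW) = 1 ∧ jump (([1], [2]) : PW) = -1 := by
  simp [jump, ep, dv]

lemma ht_ex : ht (([0], [2]) : PW) = 1 ∧ ht (([1], [3]) : PW) = 1 ∧
    ht (([0], [3]) : PW) = 1 ∧ ht (([1], [2]) : PW) = 1 := by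
  simp [ht, ep, dv, lev]

lemma PcT_zero (h5 : K5basic_Stmt) (r : ℕ) : PcT r (1, 1) 0 = {([0], [2]), ([1], [3])} := by
  obtain ⟨b1, b2, b3, b4⟩ := h5 r 2 (by norm_num)
  ext p
  rw [mem_PcT, mem_insert, mem_singleton]
  constructor
  · rintro ⟨h1, h2, _, h4⟩
    rcases Pc_two r p h1 (by simpa using h2) with h | h | h | h
    · exact Or.inl h
    · exact Or.inr h
    · rw [h, jump_ex.2.2.1] at h4; omega
    · rw [h, jump_ex.2.2.2] at h4; omega
  · rintro (rfl | rfl)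
    · exact ⟨((mem_allowed _ _ _).1 b1).1, by simp, by rw [ht_ex.1]; simp, jump_ex.1⟩
    · exact ⟨((mem_allowed _ _ _).1 b2).1, by simp, by rw [ht_ex.2.1]; simp, jump_ex.2.1⟩

lemma PcT_one (h5 : K5basic_Stmt) (r : ℕ) : PcT r (1, 1) 1 = {([0], [3])} := by
  obtain ⟨b1, b2, b3, b4⟩ := h5 r 2 (by norm_num)
  ext p
  rw [mem_PcT, mem_singleton]
  constructor
  · rintro ⟨h1, h2, _, h4⟩
    rcases Pc_two r p h1 (by simpa using h2) with h | h | h | h
    · rw [h, jump_ex.1] at h4; omega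
    · rw [h, jump_ex.2.1] at h4; omega
    · exact h
    · rw [h, jump_ex.2.2.2] at h4; omega
  · rintro rfl
    exact ⟨((mem_allowed _ _ _).1 b3).1, by simp, by rw [ht_ex.2.2.1]; simp, jump_ex.2.2.1⟩

lemma PcT_far (r : ℕ) (d : ℤ) (hd : 2 ≤ |d|) : PcT r (1, 1) d = ∅ := by
  ext p
  rw [mem_PcT]
  constructor
  · rintro ⟨h1, h2, _, h4⟩
    exfalso
    have hj : |jump p| ≤ 1 := by
      rcases Pc_two r p h1 (by simpa using h2) with h | h | h | h
      · rw [h, jump_ex.1]; norm_num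
      · rw [h, jump_ex.2.1]; norm_num
      · rw [h, jump_ex.2.2.1]; norm_num
      · rw [h, jump_ex.2.2.2]; norm_num
    rw [h4] at hj
    omega
  · intro h; simp at h

lemma alT_one (h5 : K5basic_Stmt) (r : ℕ) (g g' : ℤ) (hg : 1 ≤ g) (hg' : 1 ≤ g') :
    alT r (1, 1) g g' = PcT r (1, 1) (g' - g) := by
  obtain ⟨b1, b2, b3, b4⟩ := h5 r g hg
  ext p
  rw [mem_PcT, mem_alT]
  constructor
  · rintro ⟨h1, h2⟩
    exact ⟨((mem_allowed _ _ _).1 h1).1, h2⟩
  · rintro ⟨h1, h2, h3, h4⟩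
    refine ⟨?_, h2, h3, h4⟩
    rcases Pc_two r p h1 (by simpa using h2) with h | h | h | h
    · rw [h]; exact b1
    · rw [h]; exact b2
    · rw [h]; exact b3
    · rw [h]
      apply b4
      rw [h, jump_ex.2.2.2] at h4
      omega

lemma card_PcT_even (h5 : K5flip_Stmt) (r : ℕ) (i : ℕ × ℕ) (d : ℤ) :
    (PcT r i (-d)).card = (PcT r i d).card := by
  apply card_nbij' (fun p => flip p) (fun p => flip p)
  · intro p hp
    rw [mem_coe, mem_PcT] at hp ⊢
    obtain ⟨h1, h2, h3, h4⟩ := hp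
    obtain ⟨f1, f2, f3, f4, f5, f6, f7⟩ := h5 r p h1
    exact ⟨f1, by rw [f6]; exact h2, by rw [f4]; exact h3, by rw [f3, h4, neg_neg]⟩
  · intro p hp
    rw [mem_coe, mem_PcT] at hp ⊢
    obtain ⟨h1, h2, h3, h4⟩ := hp
    obtain ⟨f1, f2, f3, f4, f5, f6, f7⟩ := h5 r p h1
    exact ⟨f1, by rw [f6]; exact h2, by rw [f4]; exact h3, by rw [f3, h4]⟩
  · intro p hp
    rw [mem_coe, mem_PcT] at hp
    exact (h5 r p hp.1).2.1
  · intro p hp
    rw [mem_coe, mem_PcT] at hp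
    exact (h5 r p hp.1).2.1

lemma card_alT_symm (h5 : K5flip_Stmt) (r : ℕ) (i : ℕ × ℕ) (g g' : ℤ) :
    (alT r i g g').card = (alT r i g' g).card := by
  have key : ∀ a b : ℤ, ∀ p ∈ alT r i a b, flip p ∈ alT r i b a := by
    intro a b p hp
    rw [mem_alT] at hp ⊢
    obtain ⟨h1, h2, h3, h4⟩ := hp
    have h0 := ((mem_allowed _ _ _).1 h1).1
    obtain ⟨f1, f2, f3, f4, f5, f6, f7⟩ := h5 r p h0
    have := (f7 a).1 h1
    rw [h4, show a + (b - a) = b by ring] at this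
    exact ⟨this, by rw [f6]; exact h2, by rw [f4]; exact h3, by rw [f3, h4]; ring⟩
  have key2 : ∀ a b : ℤ, ∀ p ∈ alT r i a b, flip (flip p) = p := by
    intro a b p hp
    rw [mem_alT] at hp
    exact (h5 r p ((mem_allowed _ _ _).1 hp.1).1).2.1
  apply card_nbij' (fun p => flip p) (fun p => flip p)
  · intro p hp; exact key g g' p hp
  · intro p hp; exact key g' g p hp
  · intro p hp; exact key2 g g' p hp
  · intro p hp; exact key2 g' g p hp

lemma alT_sub (r : ℕ) (i : ℕ × ℕ) (g g' : ℤ) : alT r i g g' ⊆ PcT r i (g' - g) := by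
  intro p hp
  rw [mem_alT] at hp
  rw [mem_PcT]
  exact ⟨((mem_allowed _ _ _).1 hp.1).1, hp.2⟩

lemma exists_rho (S : Finset (ℕ × ℕ)) (t : ℕ × ℕ → ℝ) (h0 : ∀ i ∈ S, 1 ≤ i.1)
    (ht : ∀ i, 0 ≤ t i) (i0 : (1, 1) ∈ S) (h1 : 1 ≤ t (1, 1)) :
    ∃ rho : ℝ, 0 < rho ∧ ∑ i ∈ S, rho ^ i.1 * t i = 1 := by
  have hc : ContinuousOn (fun x : ℝ => ∑ i ∈ S, x ^ i.1 * t i) (Set.Icc 0 1) := by
    fun_prop
  have hz : ∑ i ∈ S, (0 : ℝ) ^ i.1 * t i = 0 := by
    apply sum_eq_zero
    intro i hi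
    rw [zero_pow (by have := h0 i hi; omega), zero_mul]
  have ho : 1 ≤ ∑ i ∈ S, (1 : ℝ) ^ i.1 * t i := by
    have := single_le_sum (f := fun i => (1 : ℝ) ^ i.1 * t i)
      (fun i _ => by simpa using ht i) i0
    simp only [one_pow, one_mul] at this ⊢
    linarith
  have := intermediate_value_Icc (zero_le_one) hc
  obtain ⟨x, hx, hx1⟩ := this ⟨by rw [hz]; norm_num, ho⟩
  refine ⟨x, ?_, hx1⟩
  rcases lt_or_eq_of_le hx.1 with h | h
  · exact h
  · exfalso
    rw [← h] at hx1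
    simp only at hx1
    rw [hz] at hx1
    norm_num at hx1

/-- The gap kernel of the family `Fam r`. -/
noncomputable def kern (hfar : K5far_Stmt) (hflip : K5flip_Stmt) (hsize : K5size_Stmt)
    (hbasic : K5basic_Stmt) (r : ℕ) : Gap.GapKernel :=
  have hT1 : ∀ i d, (0 : ℝ) ≤ ((PcT r i d).card : ℝ) := fun i d => by positivity
  have i0 : ((1, 1) : ℕ × ℕ) ∈ Icc 1 (r + 2) ×ˢ Icc 1 (r + 2) := by simp
  have hrho := exists_rho (Icc 1 (r + 2) ×ˢ Icc 1 (r + 2))
    (fun i => ∑ d ∈ Icc (-((r + 2 : ℕ) : ℤ)) (r + 2 : ℕ), ((PcT r i d).card : ℝ))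
    (fun i hi => (mem_Icc.1 (mem_product.1 hi).1).1)
    (fun i => sum_nonneg fun d _ => hT1 i d) i0 (by
      have := single_le_sum (f := fun d => ((PcT r (1, 1) d).card : ℝ))
        (s := Icc (-((r + 2 : ℕ) : ℤ)) (r + 2 : ℕ))
        (fun i _ => hT1 _ _) (a := 1) (by
          rw [mem_Icc]; push_cast; constructor <;> omega)
      rw [PcT_one hbasic r] at this
      simpa using this)
  { S := Icc 1 (r + 2) ×ˢ Icc 1 (r + 2)
    R := r + 2
    K := fun i g g' => ((alT r i g g').card : ℝ)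
    T := fun i d => ((PcT r i d).card : ℝ)
    rho := hrho.choose
    i0_mem := i0
    pos_mem := fun i hi => ⟨(mem_Icc.1 (mem_product.1 hi).1).1,
      (mem_Icc.1 (mem_product.1 hi).2).1⟩
    T_nonneg := hT1
    T_even := fun i d => by rw [card_PcT_even hflip]
    T_range := fun i d hd => by
      rw [Nat.cast_eq_zero, card_eq_zero]
      by_contra hne
      obtain ⟨p, hp⟩ := nonempty_iff_ne_empty.2 hne
      rw [mem_PcT] at hp
      have := (hsize r p hp.1).2.2.2.2.2.1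
      rw [hp.2.2.2] at this
      push_cast at hd
      omega
    K_nonneg := fun i g g' => by positivity
    K_symm := fun i g g' => by rw [card_alT_symm hflip]
    K_le := fun i g g' => by exact_mod_cast card_le_card (alT_sub r i g g')
    K_out := fun i g g' hg => by
      rw [Nat.cast_eq_zero, card_eq_zero]
      by_contra hne
      obtain ⟨p, hp⟩ := nonempty_iff_ne_empty.2 hne
      rw [mem_alT] at hp
      have := ((mem_allowed _ _ _).1 hp.1).2.1
      omega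
    K_eq := fun i g g' hg hg' hR => by
      have h : alT r i g g' = PcT r i (g' - g) := by
        classical
        unfold alT PcT
        rw [hfar r g (by push_cast at hR; omega)]
      rw [h]
    T_one := by
      refine ⟨?_, ?_, ?_⟩
      · rw [PcT_zero hbasic r]
        rw [card_insert_of_notMem (by simp), card_singleton]
        norm_num
      · rw [PcT_one hbasic r]; simp
      · intro d hd
        rw [PcT_far r d hd]; simp
    K_one := fun g g' hg hg' => by rw [alT_one hbasic r g g' hg hg']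
    rho_pos := hrho.choose_spec.1
    crit := hrho.choose_spec.2 }

end Pool.Agent.SapR.M41
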