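import Pool.Agent.Lib_helper41.SapR.Transfer
import Pool.Agent.Lib_helper41.SapR.Diag

/-!
The main theorem, from the analytic statement `Gap.FINAL_Stmt`.
-/

set_option autoImplicit false

namespace Pool.Agent.SapR.M41

open Finset Pool.Agent.Lib27 Filter Topology Pool.Agent.AreaLaw MeasureTheory

lemma area_nonneg (n : ℕ) (s : Fin (2 * n) → Fin 4) : 0 ≤ area n s := by
  rw [area_eq]
  have := T_nonneg (List.ofFn s)
  linarith

lemma areaCdf_mono (n : ℕ) (F : Finset (Fin (2 * n) → Fin 4)) : Monotone (areaCdf n F) := by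
  classical
  intro x y hxy
  unfold areaCdf
  apply div_le_div_of_nonneg_right _ (by positivity)
  have : (F.filter (fun s => area n s * (F.card : ℝ) ≤ x * ∑ t ∈ F, area n t)).card ≤
      (F.filter (fun s => area n s * (F.card : ℝ) ≤ y * ∑ t ∈ F, area n t)).card := by
    apply card_le_card
    intro s hs
    rw [mem_filter] at hs ⊢
    refine ⟨hs.1, hs.2.trans ?_⟩
    exact mul_le_mul_of_nonneg_right hxy (sum_nonneg fun t _ => area_nonneg n t)
  exact_mod_cast this

lemma short_all (r n : ℕ) (h : 2 * n ≤ r) : Short r n = SAP n := by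
  ext s
  rw [short_iff, SAP_iff, k7mono.2 r n h]

theorem main (hF : Gap.FINAL_Stmt) :
    ∃ μ : Measure ℝ, IsProbabilityMeasure μ ∧
      (∀ x : ℝ, μ {x} = 0 →
        Tendsto (fun n : ℕ => areaCdf n (Staircase n) x) atTop (𝓝 (μ (Set.Iic x)).toReal)) ∧
      ∃ R : ℕ → ℕ, Tendsto R atTop atTop ∧
        (∀ r : ℕ → ℕ, (∀ᶠ n in atTop, 1 ≤ r n ∧ r n ≤ R n) → ∀ x : ℝ, μ {x} = 0 →
          Tendsto (fun n : ℕ => areaCdf n (Short (r n) n) x) atTop
            (𝓝 (μ (Set.Iic x)).toReal)) ∧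
        ∀ ε : ℝ, 0 < ε → ∀ᶠ n : ℕ in atTop,
          Real.exp (-(ε * n)) * ((SAP n).card : ℝ) ≤ ((Short (R n) n).card : ℝ) := by
  obtain ⟨μ, hμ, h⟩ := law_fixed hF
  obtain ⟨R, hR, hdiag⟩ := diagonal μ (fun r n x => areaCdf n (Short r n) x)
    (fun r n => areaCdf_mono n (Short r n)) (fun x hx r hr => (h x hx).2 r hr)
  refine ⟨μ, hμ, fun x hx => (h x hx).1, R, hR, hdiag, ?_⟩
  intro ε hε
  obtain ⟨r, hr⟩ := growth_fixed ε hε
  filter_upwards [hr, hR.eventually_ge_atTop r] with n h1 h2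
  refine h1.trans ?_
  exact_mod_cast card_le_card (short_mono r (R n) n h2)

end Pool.Agent.SapR.M41
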