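import Pool.Agent.Lib_helper41.SapR.Planar
import Pool.Agent.Lib_helper24.SapR.K2
import Pool.Agent.Lib_helper27.Growth

/-!
Opening a self-avoiding polygon at its bottom and its top vertex gives a pair of strands
with gap one (part of K7).
-/

set_option autoImplicit false

namespace Pool.Agent.SapR.M41

open Finset Pool.Agent.Lib27

/-- nonnegative for the order by level and first coordinate -/
def dNon (v : ℤ × ℤ) : Prop := 0 < lev v ∨ (lev v = 0 ∧ 0 ≤ v.1)

/-- rooted at the lowest vertex -/
def DRooted (s : List (Fin 4)) : Prop := ∀ v ∈ vs 0 s, dNon v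

open Classical in
/-- polygons rooted at the lowest vertex, first step East -/
noncomputable def DCan (n : ℕ) : Finset (List (Fin 4)) :=
  (W n).filter (fun s => s.getD 0 1 = 0 ∧ DRooted s)

lemma mem_DCan (n : ℕ) (s : List (Fin 4)) :
    s ∈ DCan n ↔ (s.length = 2 * n ∧ SAPw s) ∧ s.getD 0 1 = 0 ∧ DRooted s := by
  classical
  rw [DCan, mem_filter, mem_W]

lemma exists_dmin (s : List (Fin 4)) (h : 0 < s.length) :
    ∃ i < s.length, ∀ j < s.length, lev (ep 0 (s.take i)) < lev (ep 0 (s.take j)) ∨
      (lev (ep 0 (s.take i)) = lev (ep 0 (s.take j)) ∧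
        (ep 0 (s.take i)).1 ≤ (ep 0 (s.take j)).1) := by
  obtain ⟨i, hi, hmin⟩ := exists_min_image (range s.length)
    (fun j => toLex (lev (ep 0 (s.take j)), (ep 0 (s.take j)).1)) ⟨0, by simpa using h⟩
  refine ⟨i, by simpa using hi, fun j hj => ?_⟩
  have := hmin j (by simpa using hj)
  rw [Prod.Lex.toLex_le_toLex] at this
  exact this

lemma exists_dmax (s : List (Fin 4)) (h : 0 < s.length) :
    ∃ i < s.length, ∀ j < s.length, lev (ep 0 (s.take j)) < lev (ep 0 (s.take i)) ∨
      (lev (ep 0 (s.take j)) = lev (ep 0 (s.take i)) ∧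
        (ep 0 (s.take j)).1 ≤ (ep 0 (s.take i)).1) := by
  obtain ⟨i, hi, hmax⟩ := exists_max_image (range s.length)
    (fun j => toLex (lev (ep 0 (s.take j)), (ep 0 (s.take j)).1)) ⟨0, by simpa using h⟩
  refine ⟨i, by simpa using hi, fun j hj => ?_⟩
  have := hmax j (by simpa using hj)
  rw [Prod.Lex.toLex_le_toLex] at this
  exact this

lemma exists_drooted (s : List (Fin 4)) (h : 0 < s.length) (hs : SAPw s) :
    ∃ i < s.length, DRooted (s.drop i ++ s.take i) := by
  obtain ⟨i, hi, hmin⟩ := exists_dmin s h
  refine ⟨i, hi, ?_⟩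
  have h0 : s.take i ++ s.drop i = s := List.take_append_drop i s
  have hep : ep 0 (s.drop i) = - ep 0 (s.take i) := by
    have := hs.1
    rw [← h0, ep_append, ep_eq] at this
    exact eq_neg_of_add_eq_zero_left this
  intro v hv
  have : ∃ w ∈ vs 0 s, v = w - ep 0 (s.take i) := by
    rw [vs_append, List.mem_append] at hv
    rcases hv with hv | hv
    · refine ⟨v + ep 0 (s.take i), ?_, by abel⟩
      rw [← h0, vs_append, List.mem_append]
      right
      rw [h0, vs_eq, List.mem_map]
      exact ⟨v, hv, rfl⟩
    · rw [hep, vs_eq, List.mem_map] at hv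
      obtain ⟨w, hw, rfl⟩ := hv
      refine ⟨w, ?_, by abel⟩
      have h7 : w ∈ vs 0 (s.take i ++ s.drop i) := by
        rw [vs_append, List.mem_append]
        exact Or.inl hw
      rwa [h0] at h7
  obtain ⟨w, hw, rfl⟩ := this
  obtain ⟨j, hj, rfl⟩ := List.mem_iff_getElem.1 hw
  rw [vs_getElem]
  rw [vs_length] at hj
  have := hmin j hj
  unfold dNon
  rw [lev_sub]
  simp only [Prod.fst_sub]
  omega

lemma last_vertex (s : List (Fin 4)) (hs : SAPw s) (h : 0 < s.length) :
    ep 0 (s.take (s.length - 1)) = - dv (s.getD (s.length - 1) 0) := by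
  have h3 := vertex_succ s (s.length - 1) (by omega)
  rw [Nat.sub_add_cancel (by omega), closed_take s hs] at h3
  exact eq_neg_of_add_eq_zero_left h3.symm

/-- first and last steps of a rooted word -/
lemma drooted_steps (n : ℕ) (hn : 2 ≤ n) (s : List (Fin 4)) (hl : s.length = 2 * n)
    (hs : SAPw s) (hr : DRooted s) :
    (s.getD 0 0 = 0 ∧ s.getD (s.length - 1) 0 = 3) ∨
      (s.getD 0 0 = 1 ∧ s.getD (s.length - 1) 0 = 2) := by
  have h1 : dNon (ep 0 (s.take 1)) := hr _ (vertex_mem s 1 (by omega))
  have h1' := vertex_succ s 0 (by omega)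
  simp only [List.take_zero, ep_nil, zero_add] at h1'
  rw [h1'] at h1
  have h2 : dNon (ep 0 (s.take (s.length - 1))) := hr _ (vertex_mem s _ (by omega))
  rw [last_vertex s hs (by omega)] at h2
  have h6 : s.getD 0 0 ≠ s.getD (s.length - 1) 0 + 2 := by
    intro h
    refine norev s hs (by omega) (s.length - 1) 0 (by omega) (by omega) ?_ h
    rw [Nat.sub_add_cancel (by omega), closed_take s hs]
    simp
  generalize s.getD 0 0 = d at *
  generalize s.getD (s.length - 1) 0 = e at *
  clear h1'
  unfold dNon lev at h1 h2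
  have key : ∀ d e : Fin 4, (0 < (dv d).1 + (dv d).2 ∨ (dv d).1 + (dv d).2 = 0 ∧ 0 ≤ (dv d).1) →
    (0 < (-dv e).1 + (-dv e).2 ∨ (-dv e).1 + (-dv e).2 = 0 ∧ 0 ≤ (-dv e).1) → d ≠ e + 2 →
    ((d = 0 ∧ e = 3) ∨ (d = 1 ∧ e = 2)) := by
    decide
  exact key d e h1 h2 h6

lemma W_le_dcan (n : ℕ) (hn : 2 ≤ n) : (W n).card ≤ 4 * n * (DCan n).card := by
  classical
  have hex : ∀ s ∈ W n, ∃ y : (ℕ × Bool) × List (Fin 4),
      y ∈ (range (2 * n) ×ˢ (univ : Finset Bool)) ×ˢ DCan n ∧
      (if y.1.2 then y.2 else rv y.2) = s.drop y.1.1 ++ s.take y.1.1 := by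
    intro s hs
    rw [mem_W] at hs
    obtain ⟨hl, hS⟩ := hs
    obtain ⟨i, hi, hr⟩ := exists_drooted s (by omega) hS
    have hS' : SAPw (s.drop i ++ s.take i) := by
      apply SAPw_rotate
      rwa [List.take_append_drop]
    have hl' : (s.drop i ++ s.take i).length = 2 * n := by
      simp; omega
    rcases drooted_steps n hn _ hl' hS' hr with h | h
    · refine ⟨((i, true), s.drop i ++ s.take i), ?_, by simp⟩
      simp only [mem_product, mem_range, mem_univ, and_true, mem_DCan]
      refine ⟨by omega, ⟨hl', hS'⟩, ?_, hr⟩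
      have := h.1
      rw [List.getD_eq_getElem _ _ (by omega)] at this ⊢
      exact this
    · refine ⟨((i, false), rv (s.drop i ++ s.take i)), ?_, by simp [rv_rv]⟩
      simp only [mem_product, mem_range, mem_univ, and_true, mem_DCan]
      refine ⟨by omega, ⟨by simp [rv]; omega, SAPw_rv _ hS'⟩, ?_, ?_⟩
      · have := h.2
        rw [rv, List.getD_eq_getElem _ _ (by simp; omega), List.getElem_reverse, List.getElem_map]
        rw [List.getD_eq_getElem _ _ (by omega)] at this
        simp only [List.length_map, Nat.sub_zero] at *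
        rw [this]
        decide
      · intro v hv
        rw [mem_vs_rv _ hS'] at hv
        exact hr v hv
  choose! f hf1 hf2 using hex
  have hcard : (W n).card ≤ ((range (2 * n) ×ˢ (univ : Finset Bool)) ×ˢ DCan n).card := by
    refine card_le_card_of_injOn f hf1 ?_
    intro s hs t ht hst
    have e1 := hf2 s hs
    have e2 := hf2 t ht
    rw [hst] at e1
    have e3 : s.drop (f t).1.1 ++ s.take (f t).1.1 = t.drop (f t).1.1 ++ t.take (f t).1.1 :=
      e1.symm.trans e2
    have hs' := mem_coe.1 hs
    have ht' := mem_coe.1 ht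
    rw [mem_W] at hs' ht'
    have h4 := List.append_inj e3 (by simp [hs'.1, ht'.1])
    calc s = s.take (f t).1.1 ++ s.drop (f t).1.1 := (List.take_append_drop _ _).symm
      _ = t.take (f t).1.1 ++ t.drop (f t).1.1 := by rw [h4.1, h4.2]
      _ = t := List.take_append_drop _ _
  rw [card_product, card_product, card_range, card_univ, Fintype.card_bool] at hcard
  calc (W n).card ≤ 2 * n * 2 * (DCan n).card := hcard
    _ = 4 * n * (DCan n).card := by ring

/-- Splitting of a rooted polygon at its highest vertex. -/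
lemma split_top (n : ℕ) (hn : 2 ≤ n) (s : List (Fin 4)) (hs : s ∈ DCan n) :
    ∃ α β : List (Fin 4), s = α ++ [1] ++ (2 :: β) ++ [3] ∧
      (vt 0 α ++ vt (ep 0 (α ++ [1])) (2 :: β)).Nodup ∧
      (∀ q ∈ vt 0 α ++ vt (ep 0 (α ++ [1])) (2 :: β), dNon q ∧
        (lev q < lev (ep 0 (α ++ [1])) ∨ (lev q = lev (ep 0 (α ++ [1])) ∧
          q.1 ≤ (ep 0 (α ++ [1])).1))) ∧
      ep (ep 0 (α ++ [1])) (2 :: β) = (0, 1) := by
  rw [mem_DCan] at hs
  obtain ⟨⟨hl, hS⟩, hf, hr⟩ := hs
  obtain ⟨i, hi, hmax⟩ := exists_dmax s (by omega)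
  have hsteps : s.getD 0 0 = 0 ∧ s.getD (s.length - 1) 0 = 3 := by
    rcases drooted_steps n hn s hl hS hr with h | h
    · exact h
    · exfalso
      have := h.1
      rw [List.getD_eq_getElem _ _ (by omega)] at this hf
      rw [this] at hf
      exact absurd hf (by decide)
  have hv1 : ep 0 (s.take 1) = (1, 0) := by
    have := vertex_succ s 0 (by omega)
    simp only [List.take_zero, ep_nil, zero_add] at this
    rw [this, hsteps.1]
    decide
  have hvl : ep 0 (s.take (s.length - 1)) = (0, 1) := by
    rw [last_vertex s hS (by omega), hsteps.2]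
    decide
  have hi0 : i ≠ 0 := by
    rintro rfl
    have := hmax 1 (by omega)
    rw [hv1] at this
    simp [lev] at this
  have hil : i ≠ s.length - 1 := by
    intro h
    have := hmax 1 (by omega)
    rw [hv1, h, hvl] at this
    simp [lev] at this
  -- the two halves
  set s₁ := s.take i with hs1
  set s₂ := s.drop i with hs2
  have h0 : s₁ ++ s₂ = s := List.take_append_drop i s
  have hl1 : s₁.length = i := by rw [hs1, List.length_take]; omega
  have hl2 : s₂.length = s.length - i := by rw [hs2, List.length_drop]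
  have hne1 : s₁ ≠ [] := by rintro h; rw [h] at hl1; simp at hl1; omega
  have hne2 : s₂ ≠ [] := by rintro h; rw [h] at hl2; simp at hl2; omega
  obtain ⟨α, a, hα⟩ : ∃ α a, s₁ = α ++ [a] :=
    ⟨s₁.dropLast, s₁.getLast hne1, (List.dropLast_append_getLast hne1).symm⟩
  obtain ⟨β, e, hβ⟩ : ∃ β e, s₂ = β ++ [e] :=
    ⟨s₂.dropLast, s₂.getLast hne2, (List.dropLast_append_getLast hne2).symm⟩
  have hlβ : β.length = s.length - i - 1 := by
    have := congrArg List.length hβ
    rw [List.length_append, List.length_singleton] at this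
    omega
  obtain ⟨b, β', hb⟩ : ∃ b β', β = b :: β' := by
    cases β with
    | nil => simp at hlβ; omega
    | cons b β' => exact ⟨b, β', rfl⟩
  have he : e = 3 := by
    have h1 := hsteps.2
    have h2 : s = (s₁ ++ β) ++ [e] := by rw [← h0, hβ, List.append_assoc]
    rw [h2] at h1
    rw [List.length_append, List.length_singleton, Nat.add_sub_cancel] at h1
    rw [List.getD_append_right _ _ _ _ (le_refl _)] at h1
    simpa using h1
  have hmax' : ∀ q ∈ vs 0 s, lev q < lev (ep 0 s₁) ∨ (lev q = lev (ep 0 s₁) ∧
      q.1 ≤ (ep 0 s₁).1) := by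
    intro q hq
    obtain ⟨j, hj, rfl⟩ := List.mem_iff_getElem.1 hq
    rw [vs_getElem]
    rw [vs_length] at hj
    exact hmax j hj
  have hvs : vs 0 s = vt 0 α ++ vt (ep 0 s₁) β := by
    rw [← h0, vs_append, hβ, vs_append, hα, vs_append]
    simp [vt]
  have hnd : (vt 0 α ++ vt (ep 0 s₁) β).Nodup := by
    rw [← hvs]; exact hS.2
  have hclose : ep (ep 0 s₁) β = (0, 1) := by
    have h1 := hS.1
    rw [← h0, ep_append, hβ, ep_append, he] at h1
    simp only [ep_cons, ep_nil] at h1
    have h2 : ep (ep 0 s₁) β = - dv 3 := eq_neg_of_add_eq_zero_left h1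
    rw [h2]
    decide
  -- the step a goes up
  have ha1 : lev (dv a) = 1 := by
    rcases lev_dv a with h | h
    · exact h
    · exfalso
      have h1 := hmax' (ep 0 α) (by rw [hvs]; exact List.mem_append_left _ (ep_mem_vt _ _))
      have h2 : ep 0 s₁ = ep 0 α + dv a := by rw [hα, ep_append]; rfl
      rw [h2, lev_add, h] at h1
      omega
  have hb1 : lev (dv b) = -1 := by
    rcases lev_dv b with h | h
    · exfalso
      have h1 := hmax' (ep 0 s₁ + dv b) (by
        rw [hvs, hb]
        apply List.mem_append_right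
        rw [vt_cons]
        exact List.mem_cons_of_mem _ (mem_vt_self _ _))
      rw [lev_add, h] at h1
      omega
    · exact h
  have hab : a + 2 ≠ b := by
    intro h
    rw [List.nodup_append'] at hnd
    refine hnd.2.2 (ep_mem_vt 0 α) ?_
    have h2 : ep 0 s₁ + dv b = ep 0 α := by
      rw [hα, ep_append, ← h, dv_add_two]
      simp only [ep_cons, ep_nil]
      abel
    rw [hb, vt_cons, ← h2]
    exact List.mem_cons_of_mem _ (mem_vt_self _ _)
  -- b = 3 is impossible
  have hb3 : b ≠ 3 := by
    intro hb3
    set v := ep 0 s₁ with hv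
    set H := lev v with hH
    have hl11 : lev ((1 : ℤ), (-1 : ℤ)) = 0 := by simp [lev]
    have hHpos : 0 < H := by
      have := hmax' (1, 0) (by rw [← hv1]; exact vertex_mem s 1 (by omega))
      simp only [lev] at this
      omega
    have hstart : v + (1, -1) + dv 2 = v + dv b := by
      rw [hb3]
      have : dv 2 = (-1, 0) := by decide
      rw [this]
      have : dv 3 = (0, -1) := by decide
      rw [this]
      ext <;> simp
    have hvt : vt (v + (1, -1)) (2 :: (β' ++ [2])) =
        (v + (1, -1)) :: (vt (v + dv b) β' ++ [(-1, 1)]) := by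
      rw [vt_cons, hstart, vt_append']
      have h2 : ep (v + dv b) β' = (0, 1) := by
        rw [← hclose, hb]; rfl
      rw [h2]
      simp [dv]
    have hmem : ∀ q ∈ vt (v + dv b) β', q ∈ vs 0 s ∧ q ∉ vt 0 s₁ := by
      intro q hq
      rw [hb, vt_cons] at hnd hvs
      refine ⟨by rw [hvs]; simp [hq], ?_⟩
      intro hq'
      rw [hα, vt_append'] at hq'
      rw [List.nodup_append', List.nodup_cons] at hnd
      rw [List.mem_append] at hq'
      rcases hq' with hq' | hq'
      · exact hnd.2.2 hq' (List.mem_cons_of_mem _ hq)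
      · simp only [vt_cons, vt_nil, List.tail_cons, List.mem_singleton] at hq'
        have h2 : v = ep 0 α + dv a := by rw [hv, hα, ep_append]; rfl
        rw [← h2] at hq'
        rw [hq'] at hq
        exact hnd.2.1.1 hq
    have hV1 : v + (1, -1) ∉ vt 0 s₁ := by
      intro h
      have h2 : v + (1, -1) ∈ vs 0 s ∨ v + (1, -1) = v := by
        unfold vt at h
        rw [List.mem_append, List.mem_singleton] at h
        rcases h with h | h
        · left
          rw [← h0, vs_append]
          exact List.mem_append_left _ h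
        · exact Or.inr h
      rcases h2 with h2 | h2
      · have := hmax' _ h2
        rw [lev_add, hl11] at this
        simp only [Prod.fst_add] at this
        omega
      · have := congrArg Prod.fst h2
        simp at this
    have hV2 : ((-1, 1) : ℤ × ℤ) ∉ vt 0 s₁ := by
      intro h
      unfold vt at h
      rw [List.mem_append, List.mem_singleton] at h
      rcases h with h | h
      · have := hr (-1, 1) (by rw [← h0, vs_append]; exact List.mem_append_left _ h)
        simp [dNon, lev] at this
      · have : lev v = 0 := by rw [hv, ← h]; simp [lev]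
        omega
    have hc := side_const H 0 s₁ (by simp [lev]) (by rw [hH]) (2 :: (β' ++ [2])) (v + (1, -1)) (by
      intro q hq
      rw [hvt, List.mem_cons, List.mem_append, List.mem_singleton] at hq
      rcases hq with rfl | hq | rfl
      · rw [lev_add]
        simp only [lev] at hH hHpos ⊢
        omega
      · have h3 := hmem q hq
        have h4 := hmax' q h3.1
        have h5 := hr q h3.1
        unfold dNon at h5
        omega
      · simp only [lev]
        omega) (by
      intro q hq
      rw [hvt, List.mem_cons, List.mem_append, List.mem_singleton] at hq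
      rcases hq with rfl | hq | rfl
      · exact hV1
      · exact (hmem q hq).2
      · exact hV2)
    have hend : ep (v + (1, -1)) (2 :: (β' ++ [2])) = (-1, 1) := by
      rw [ep_cons, hstart, ep_append]
      have h2 : ep (v + dv b) β' = (0, 1) := by
        rw [← hclose, hb]; rfl
      rw [h2]
      simp [dv]
    rw [hend, side_eq H 0 s₁ (by simp [lev]) (by rw [hH]) (-1, 1)] at hc
    unfold side at hc
    have hbound : ∀ q ∈ vt 0 s₁, 0 ≤ lev q ∧ lev q ≤ H := by
      intro q hq
      unfold vt at hq
      rw [List.mem_append, List.mem_singleton] at hq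
      rcases hq with hq | hq
      · have h3 : q ∈ vs 0 s := by rw [← h0, vs_append]; exact List.mem_append_left _ hq
        have h4 := hmax' q h3
        have h5 := hr q h3
        unfold dNon at h5
        omega
      · rw [hq]; exact ⟨hHpos.le, le_rfl⟩
    rw [cm_eq_zero (lev (-1, 1)) _ 0 s₁ (fun q hq => by simpa [lev] using (hbound q hq).1),
      cp_eq_zero (lev (v + (1, -1))) _ 0 s₁ (fun q hq => by
        have := (hbound q hq).2
        rw [lev_add]
        simp only [lev] at hH this ⊢
        omega), zero_add, zero_add] at hc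
    have h6 := ind_inj hc
    have h7 := h6.1 ⟨by rw [lev_add]; simp [lev, hH], by simp [hv]⟩
    simp at h7
  have hb2 : b = 2 := by
    revert hb1 hb3
    clear hab hb
    revert b
    decide
  have ha' : a = 1 := by
    subst hb2
    revert ha1 hab
    clear hα
    revert a
    decide
  subst ha'
  subst hb2
  subst he
  refine ⟨α, β', ?_, ?_, ?_, ?_⟩
  · rw [← h0, hα, hβ, hb]
    simp
  · rw [← hb, ← hα]; exact hnd
  · rw [← hb, ← hα, ← hvs]
    exact fun q hq => ⟨hr q hq, hmax' q hq⟩
  · rw [← hb, ← hα]; exact hclose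

end Pool.Agent.SapR.M41
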