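import Pool.Agent.Lib_helper41.SapR.Open

/-!
The pair of strands obtained by opening a polygon (part of K7).
-/

set_option autoImplicit false

namespace Pool.Agent.SapR.M41

open Finset Pool.Agent.Lib27

/-- Pairs of strands from gap one to gap one. -/
def Good (p : List (Fin 4) × List (Fin 4)) : Prop :=
  StripPair p.1 p.2 ∧ Disj 1 p ∧ jump p = 0

/-- opened polygon, first strand -/
def opU (α : List (Fin 4)) : List (Fin 4) := 1 :: (α ++ [0, 1])

/-- opened polygon, second strand -/
def opD (β : List (Fin 4)) : List (Fin 4) := 3 :: (β ++ [2, 3])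

lemma dv0 : dv 0 = (1, 0) := by decide
lemma dv1 : dv 1 = (0, 1) := by decide
lemma dv2 : dv 2 = (-1, 0) := by decide
lemma dv3 : dv 3 = (0, -1) := by decide

lemma vt_opU (α : List (Fin 4)) (v : ℤ × ℤ) (hv : ep 0 α + (0, 1) = v) :
    vt 0 (opU α) = 0 :: ((vt 0 α).map (· + (0, 1)) ++ [v + (1, 0), v + (1, 1)]) := by
  unfold opU
  rw [vt_cons, vt_append', ep_eq (0 + dv 1) α, vt_eq (0 + dv 1) α]
  simp only [zero_add, dv1, hv]
  simp only [vt_cons, vt_nil, List.tail_cons, dv0, dv1]
  congr 3
  rw [add_assoc]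
  rfl

lemma vt_opD (β : List (Fin 4)) (v : ℤ × ℤ) (hv : ep v β = (0, 1)) :
    vt (v + (0, 2)) (opD β) =
      (v + (0, 2)) :: ((vt v β).map (· + (0, 1)) ++ [(-1, 2), (-1, 1)]) := by
  have h1 : v + (0, 2) + dv 3 = v + (0, 1) := by
    rw [dv3, add_assoc]; rfl
  unfold opD
  rw [vt_cons, h1, vt_append', ep_add, vt_add, hv]
  simp only [vt_cons, vt_nil, List.tail_cons, dv2, dv3]
  rfl

lemma good_open (α β : List (Fin 4)) (v : ℤ × ℤ) (hv : ep 0 α + (0, 1) = v)
    (hnd : (vt 0 α ++ vt v β).Nodup)
    (hV : ∀ q ∈ vt 0 α ++ vt v β, dNon q ∧ (lev q < lev v ∨ (lev q = lev v ∧ q.1 ≤ v.1)))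
    (hend : ep v β = (0, 1)) : Good (opU α, opD β) := by
  have hl01 : lev ((0 : ℤ), (1 : ℤ)) = 1 := by simp [lev]
  have hl02 : lev ((0 : ℤ), (2 : ℤ)) = 2 := by simp [lev]
  have hl10 : lev ((1 : ℤ), (0 : ℤ)) = 1 := by simp [lev]
  have hl11 : lev ((1 : ℤ), (1 : ℤ)) = 2 := by simp [lev]
  have hm11 : lev ((-1 : ℤ), (1 : ℤ)) = 0 := by simp [lev]
  have hm12 : lev ((-1 : ℤ), (2 : ℤ)) = 1 := by simp [lev]
  have hvpos : 1 ≤ lev v := by
    have h1 := hV (0, 1) (by rw [← hend]; exact List.mem_append_right _ (ep_mem_vt _ _))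
    rw [hl01] at h1
    omega
  have hVl : ∀ q ∈ vt 0 α ++ vt v β, 0 ≤ lev q ∧ lev q ≤ lev v := by
    intro q hq
    have := hV q hq
    unfold dNon at this
    omega
  have hnV1 : v + (1, -1) ∉ vt 0 α ++ vt v β := by
    intro h
    have := (hV _ h).2
    have h3 : lev (v + (1, -1)) = lev v := by rw [lev_add]; simp [lev]
    rw [h3] at this
    simp only [Prod.fst_add] at this
    omega
  have hnV2 : ((-1 : ℤ), (1 : ℤ)) ∉ vt 0 α ++ vt v β := by
    intro h
    have := (hV _ h).1
    unfold dNon at this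
    rw [hm11] at this
    simp at this
  have hepU : ep 0 (opU α) = v + (1, 1) := by
    have h1 : ep 0 (opU α) ∈ vt 0 (opU α) := ep_mem_vt _ _
    unfold opU
    rw [ep_cons, ep_append, ep_eq (0 + dv 1) α, zero_add, dv1, hv]
    simp only [ep_cons, ep_nil, dv0, dv1]
    rw [add_assoc]; rfl
  have hepD : ep (v + (0, 2)) (opD β) = (-1, 1) := by
    unfold opD
    have h1 : v + (0, 2) + dv 3 = v + (0, 1) := by
      rw [dv3, add_assoc]; rfl
    rw [ep_cons, h1, ep_append, ep_add, hend]
    decide
  have hepD0 : ep 0 (opD β) = - (v + (1, 1)) := by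
    have h1 := ep_eq (v + (0, 2)) (opD β)
    rw [hepD] at h1
    have h2 : ep 0 (opD β) = (-1, 1) - (v + (0, 2)) := by rw [h1]; abel
    rw [h2]
    ext <;> simp <;> ring
  have hvU := vt_opU α v hv
  have hvD := vt_opD β v hend
  have hvsU : (vs 0 (opU α)).tail = (vt 0 α).map (· + (0, 1)) ++ [v + (1, 0)] := by
    have h1 : vt 0 (opU α) = vs 0 (opU α) ++ [v + (1, 1)] := by
      rw [← hepU]; rfl
    rw [hvU] at h1
    have h2 : (0 :: ((vt 0 α).map (· + ((0 : ℤ), (1 : ℤ))) ++ [v + (1, 0)])) ++ [v + (1, 1)] =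
        vs 0 (opU α) ++ [v + (1, 1)] := by
      rw [← h1]; simp
    rw [← List.append_cancel_right h2]
    rfl
  have hvsD : (vs (v + (0, 2)) (opD β)).tail = (vt v β).map (· + (0, 1)) ++ [(-1, 2)] := by
    have h1 : vt (v + (0, 2)) (opD β) = vs (v + (0, 2)) (opD β) ++ [(-1, 1)] := by
      rw [← hepD]; rfl
    rw [hvD] at h1
    have h2 : ((v + (0, 2)) :: ((vt v β).map (· + ((0 : ℤ), (1 : ℤ))) ++ [(-1, 2)])) ++
        [(-1, 1)] = vs (v + (0, 2)) (opD β) ++ [(-1, 1)] := by
      rw [← h1]; simp
    rw [← List.append_cancel_right h2]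
    rfl
  have hinj : Function.Injective (fun q : ℤ × ℤ => q + ((0 : ℤ), (1 : ℤ))) :=
    add_left_injective _
  have hmapU : ∀ q ∈ (vt 0 α).map (· + ((0 : ℤ), (1 : ℤ))), 1 ≤ lev q ∧ lev q ≤ lev v + 1 := by
    intro q hq
    rw [List.mem_map] at hq
    obtain ⟨p, hp, rfl⟩ := hq
    have := hVl p (List.mem_append_left _ hp)
    rw [lev_add, hl01]
    omega
  have hmapD : ∀ q ∈ (vt v β).map (· + ((0 : ℤ), (1 : ℤ))), 1 ≤ lev q ∧ lev q ≤ lev v + 1 := by
    intro q hq
    rw [List.mem_map] at hq
    obtain ⟨p, hp, rfl⟩ := hq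
    have := hVl p (List.mem_append_right _ hp)
    rw [lev_add, hl01]
    omega
  have hlev10 : lev (v + (1, 0)) = lev v + 1 := by rw [lev_add, hl10]
  have hlev11 : lev (v + (1, 1)) = lev v + 2 := by rw [lev_add, hl11]
  have hlev02 : lev (v + (0, 2)) = lev v + 2 := by rw [lev_add, hl02]
  have hx10 : ∀ l : List (ℤ × ℤ), (∀ p ∈ l, p ∈ vt 0 α ++ vt v β) →
      v + (1, 0) ∉ l.map (· + ((0 : ℤ), (1 : ℤ))) := by
    intro l hl h
    rw [List.mem_map] at h
    obtain ⟨p, hp, hpe⟩ := h
    apply hnV1
    have : p = v + (1, -1) := by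
      have h2 : p = (v + (1, 0)) - (0, 1) := by rw [← hpe]; abel
      rw [h2]
      ext <;> simp <;> ring
    rw [← this]
    exact hl p hp
  have hx12 : ∀ l : List (ℤ × ℤ), (∀ p ∈ l, p ∈ vt 0 α ++ vt v β) →
      ((-1 : ℤ), (2 : ℤ)) ∉ l.map (· + ((0 : ℤ), (1 : ℤ))) := by
    intro l hl h
    rw [List.mem_map] at h
    obtain ⟨p, hp, hpe⟩ := h
    apply hnV2
    have : p = (-1, 1) := by
      have h2 : p = (-1, 2) - (0, 1) := by rw [← hpe]; abel
      rw [h2]
      decide
    rw [← this]
    exact hl p hp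
  rw [List.nodup_append'] at hnd
  obtain ⟨hn1, hn2, hn3⟩ := hnd
  have hleft : ∀ p ∈ vt 0 α, p ∈ vt 0 α ++ vt v β := fun p hp => List.mem_append_left _ hp
  have hright : ∀ p ∈ vt v β, p ∈ vt 0 α ++ vt v β := fun p hp => List.mem_append_right _ hp
  have hndU : (vt 0 (opU α)).Nodup := by
    rw [hvU, List.nodup_cons, List.nodup_append']
    refine ⟨?_, hn1.map hinj, ?_, ?_⟩
    · intro h
      rw [List.mem_append] at h
      rcases h with h | h
      · have := (hmapU _ h).1
        rw [lev_zero] at this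
        omega
      · simp only [List.mem_cons, List.not_mem_nil, or_false] at h
        rcases h with h | h
        · rw [← h, lev_zero] at hlev10; omega
        · rw [← h, lev_zero] at hlev11; omega
    · rw [List.nodup_cons]
      refine ⟨?_, List.nodup_singleton _⟩
      rw [List.mem_singleton]
      intro h
      rw [h] at hlev10
      omega
    · intro q hq hq'
      simp only [List.mem_cons, List.not_mem_nil, or_false] at hq'
      rcases hq' with h | h
      · rw [h] at hq
        exact hx10 _ hleft hq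
      · have := (hmapU q hq).2
        rw [h] at this
        omega
  have hndD : (vt (v + (0, 2)) (opD β)).Nodup := by
    rw [hvD, List.nodup_cons, List.nodup_append']
    refine ⟨?_, hn2.map hinj, by decide, ?_⟩
    · intro h
      rw [List.mem_append] at h
      rcases h with h | h
      · have := (hmapD _ h).2
        omega
      · simp only [List.mem_cons, List.not_mem_nil, or_false] at h
        rcases h with h | h
        · rw [h, hm12] at hlev02; omega
        · rw [h, hm11] at hlev02; omega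
    · intro q hq hq'
      simp only [List.mem_cons, List.not_mem_nil, or_false] at hq'
      rcases hq' with h | h
      · rw [h] at hq
        exact hx12 _ hright hq
      · have := (hmapD q hq).1
        rw [h, hm11] at this
        omega
  refine ⟨⟨?_, ?_, hndU, ?_, ?_, ?_⟩, ?_, ?_⟩
  · rw [hepU, hlev11]; omega
  · rw [hepU, hepD0, lev_neg]
  · rw [← nodup_vt (v + (0, 2))]
    exact hndD
  · intro p hp
    rw [hvsU, List.mem_append, List.mem_singleton] at hp
    rw [hepU, hlev11]
    rcases hp with hp | hp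
    · have := hmapU p hp; omega
    · rw [hp]; omega
  · intro p hp
    have h1 : p + (v + (0, 2)) ∈ (vs (v + (0, 2)) (opD β)).tail := by
      rw [vs_eq (v + (0, 2)), ← List.map_tail, List.mem_map]
      exact ⟨p, hp, rfl⟩
    rw [hvsD, List.mem_append, List.mem_singleton] at h1
    have h2 : 1 ≤ lev (p + (v + (0, 2))) ∧ lev (p + (v + (0, 2))) ≤ lev v + 1 := by
      rcases h1 with h1 | h1
      · exact hmapD _ h1
      · rw [h1, hm12]; omega
    rw [lev_add, hlev02] at h2
    rw [hepD0, lev_neg, hlev11]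
    omega
  · -- disjointness
    have hj : jump (opU α, opD β) = 0 := by
      unfold jump
      rw [hepU, hepD0]
      simp
    unfold Disj
    rw [hj]
    simp only
    rw [hepU, show v + (1, 1) + (-(1 + 0), 1 + 0) = v + (0, 2) by rw [add_assoc]; rfl, hvU, hvD]
    intro q hq hq'
    simp only [List.mem_cons, List.mem_append, List.not_mem_nil, or_false] at hq hq'
    rcases hq with hq | hq | hq | hq
    · rw [hq] at hq'
      rcases hq' with h | h | h | h
      · rw [← h, lev_zero] at hlev02; omega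
      · have := (hmapD _ h).1
        rw [lev_zero] at this
        omega
      · exact absurd h (by decide)
      · exact absurd h (by decide)
    · rcases hq' with h | h | h | h
      · have := (hmapU _ hq).2
        rw [h] at this
        omega
      · rw [List.mem_map] at hq h
        obtain ⟨a, ha, rfl⟩ := hq
        obtain ⟨b, hb, hab⟩ := h
        have : b = a := hinj hab
        rw [this] at hb
        exact hn3 ha hb
      · rw [h] at hq
        exact hx12 _ hleft hq
      · have := (hmapU _ hq).1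
        rw [h, hm11] at this
        omega
    · rw [hq] at hq'
      rcases hq' with h | h | h | h
      · rw [h] at hlev10; omega
      · exact hx10 _ hright h
      · rw [h, hm12] at hlev10; omega
      · rw [h, hm11] at hlev10; omega
    · rw [hq] at hq'
      rcases hq' with h | h | h | h
      · have := congrArg Prod.fst h
        simp at this
      · have := (hmapD _ h).2
        omega
      · rw [h, hm12] at hlev11; omega
      · rw [h, hm11] at hlev11; omega
  · unfold jump
    rw [hepU, hepD0]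
    simp

open Classical in
/-- Pairs of strands from gap one to gap one, of total length `2 m + 4`. -/
noncomputable def Qs (m : ℕ) : Finset (List (Fin 4) × List (Fin 4)) :=
  (wordsUpTo (2 * m + 4) ×ˢ wordsUpTo (2 * m + 4)).filter
    (fun p => Good p ∧ p.1.length + p.2.length = 2 * m + 4)

lemma mem_Qs (m : ℕ) (p : List (Fin 4) × List (Fin 4)) :
    p ∈ Qs m ↔ Good p ∧ p.1.length + p.2.length = 2 * m + 4 := by
  classical
  rw [Qs, mem_filter, mem_product, mem_wordsUpTo, mem_wordsUpTo]
  constructor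
  · exact fun h => h.2
  · intro h
    exact ⟨⟨by omega, by omega⟩, h⟩

lemma dcan_le_Qs (n : ℕ) (hn : 2 ≤ n) : (DCan n).card ≤ (Qs n).card := by
  have hex : ∀ s ∈ DCan n, ∃ p : List (Fin 4) × List (Fin 4), (opU p.1, opD (2 :: p.2)) ∈ Qs n ∧
      s = p.1 ++ [1] ++ (2 :: p.2) ++ [3] := by
    intro s hs
    obtain ⟨α, β, h1, h2, h3, h4⟩ := split_top n hn s hs
    refine ⟨(α, β), ?_, h1⟩
    rw [mem_Qs]
    have hv : ep 0 α + (0, 1) = ep 0 (α ++ [1]) := by
      rw [ep_append]; rfl
    refine ⟨good_open α (2 :: β) (ep 0 (α ++ [1])) hv h2 h3 h4, ?_⟩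
    have hl := ((mem_DCan n s).1 hs).1.1
    rw [h1] at hl
    simp only [List.length_append, List.length_cons, List.length_nil] at hl
    simp only [opU, opD, List.length_append, List.length_cons, List.length_nil]
    omega
  choose! f hf1 hf2 using hex
  refine card_le_card_of_injOn (fun s => (opU (f s).1, opD (2 :: (f s).2)))
    (fun s hs => hf1 s hs) ?_
  intro s hs t ht hst
  rw [hf2 s hs, hf2 t ht]
  simp only [Prod.mk.injEq, opU, opD, List.cons.injEq, true_and, List.cons_append] at hst
  have h1 := List.append_cancel_right hst.1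
  have h2 := List.append_cancel_right hst.2
  rw [h1, h2]

end Pool.Agent.SapR.M41
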